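import Pool.Agent.SawCon.Tail
import Pool.Agent.SawMrg.HW

/-!
Stretched exponential bound for the number of contacts between blocks.
-/

set_option autoImplicit false

open Pool.Agent.SawKes

namespace Pool.Agent.SawCon

/-- a bound for `c_n` valid for all `n` -/
lemma cc_all (ε : ℝ) (hε : 0 < ε) : ∃ A : ℝ, 1 ≤ A ∧ ∀ n : ℕ,
    (cc n : ℝ) ≤ A * (mu ^ n * Real.exp ((n : ℝ) ^ ε)) := by
  obtain ⟨n₀, h⟩ := Pool.Agent.SawMrg.hw_bound ε hε
  have h1 : ∀ n : ℕ, (1 : ℝ) ≤ mu ^ n * Real.exp ((n : ℝ) ^ ε) := by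
    intro n
    have a : (1 : ℝ) ≤ mu ^ n := one_le_pow₀ one_le_mu
    have b : (1 : ℝ) ≤ Real.exp ((n : ℝ) ^ ε) := Real.one_le_exp (by positivity)
    nlinarith
  refine ⟨1 + ∑ n ∈ Finset.range n₀, (cc n : ℝ), ?_, fun n => ?_⟩
  · have : 0 ≤ ∑ n ∈ Finset.range n₀, (cc n : ℝ) := Finset.sum_nonneg fun _ _ => Nat.cast_nonneg _
    linarith
  · have h0 : 0 ≤ ∑ n ∈ Finset.range n₀, (cc n : ℝ) := Finset.sum_nonneg fun _ _ => Nat.cast_nonneg _
    by_cases hn : n₀ ≤ n
    · have := h n hn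
      nlinarith [h1 n]
    · have h3 : (cc n : ℝ) ≤ ∑ n ∈ Finset.range n₀, (cc n : ℝ) :=
        Finset.single_le_sum (f := fun n => (cc n : ℝ)) (fun _ _ => Nat.cast_nonneg _)
          (Finset.mem_range.2 (by omega))
      nlinarith [h1 n]

lemma rpow_le_self' {ε : ℝ} (hε : 0 < ε) (hε1 : ε ≤ 1) (k : ℕ) : (k : ℝ) ^ ε ≤ k := by
  rcases Nat.eq_zero_or_pos k with rfl | hk
  · simp [Real.zero_rpow hε.ne']
  · exact Real.rpow_le_self_of_one_le (by exact_mod_cast hk) hε1

/-- the single block sum -/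
lemma block_sum {ε A : ℝ} (hε : 0 < ε) (hε1 : ε ≤ 1) (hA : 1 ≤ A)
    (h : ∀ n : ℕ, (cc n : ℝ) ≤ A * (mu ^ n * Real.exp ((n : ℝ) ^ ε))) {q : ℝ}
    (hq : mu * Real.exp (1 - q) ≤ 1 / 2) (l E : ℕ) (hl : 1 ≤ l) :
    ∑ k ∈ Finset.range (E + 1), (cc (l + k - 1) : ℝ) * Real.exp (-(q * k))
      ≤ 2 * A * (mu ^ l * Real.exp ((l : ℝ) ^ ε)) := by
  have key : ∀ k ∈ Finset.range (E + 1), (cc (l + k - 1) : ℝ) * Real.exp (-(q * k))
      ≤ A * (mu ^ l * Real.exp ((l : ℝ) ^ ε)) * (1 / 2) ^ k := by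
    intro k _
    have h1 : (cc (l + k - 1) : ℝ) ≤ A * (mu ^ (l + k) * Real.exp (((l + k : ℕ) : ℝ) ^ ε)) := by
      refine (h _).trans ?_
      apply mul_le_mul_of_nonneg_left _ (by linarith)
      apply mul_le_mul (pow_le_pow_right₀ one_le_mu (by omega)) _ (Real.exp_pos _).le
        (pow_nonneg mu_pos.le _)
      apply Real.exp_le_exp.2
      apply Real.rpow_le_rpow (Nat.cast_nonneg _) _ hε.le
      exact_mod_cast (by omega : l + k - 1 ≤ l + k)
    have h2 : (((l + k : ℕ) : ℝ)) ^ ε ≤ (l : ℝ) ^ ε + k := by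
      push_cast
      refine (Real.rpow_add_le_add_rpow (Nat.cast_nonneg _) (Nat.cast_nonneg _) hε.le hε1).trans ?_
      linarith [rpow_le_self' hε hε1 k]
    calc (cc (l + k - 1) : ℝ) * Real.exp (-(q * k))
        ≤ A * (mu ^ (l + k) * Real.exp ((l : ℝ) ^ ε + k)) * Real.exp (-(q * k)) := by
          apply mul_le_mul_of_nonneg_right _ (Real.exp_pos _).le
          refine h1.trans ?_
          apply mul_le_mul_of_nonneg_left _ (by linarith)
          apply mul_le_mul_of_nonneg_left _ (pow_nonneg mu_pos.le _)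
          exact Real.exp_le_exp.2 h2
      _ = A * (mu ^ l * Real.exp ((l : ℝ) ^ ε)) * (mu * Real.exp (1 - q)) ^ k := by
          rw [mul_pow, ← Real.exp_nat_mul, pow_add, Real.exp_add,
            show (k : ℝ) * (1 - q) = k + -(q * k) by ring, Real.exp_add]
          ring
      _ ≤ A * (mu ^ l * Real.exp ((l : ℝ) ^ ε)) * (1 / 2) ^ k := by
          apply mul_le_mul_of_nonneg_left _ (by
            have := pow_pos mu_pos l
            have := Real.exp_pos ((l : ℝ) ^ ε)
            positivity)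
          exact pow_le_pow_left₀ (mul_nonneg mu_pos.le (Real.exp_pos _).le) hq k
  refine (Finset.sum_le_sum key).trans ?_
  rw [← Finset.mul_sum]
  have h3 : ∑ k ∈ Finset.range (E + 1), ((1 : ℝ) / 2) ^ k ≤ 2 := sum_geometric_two_le _
  have h4 : 0 ≤ A * (mu ^ l * Real.exp ((l : ℝ) ^ ε)) := by
    have := pow_pos mu_pos l
    have := Real.exp_pos ((l : ℝ) ^ ε)
    positivity
  calc A * (mu ^ l * Real.exp ((l : ℝ) ^ ε)) * ∑ k ∈ Finset.range (E + 1), ((1 : ℝ) / 2) ^ k
      ≤ A * (mu ^ l * Real.exp ((l : ℝ) ^ ε)) * 2 := mul_le_mul_of_nonneg_left h3 h4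
    _ = _ := by ring

/-- product over the blocks -/
lemma prod_blocks (D ε : ℝ) (ls : List ℕ) :
    (ls.map fun l : ℕ => D * (mu ^ l * Real.exp ((l : ℝ) ^ ε))).prod
      = D ^ ls.length * (mu ^ ls.sum * Real.exp ((ls.map fun l : ℕ => (l : ℝ) ^ ε).sum)) := by
  induction ls with
  | nil => simp
  | cons m ms ih =>
    rw [List.map_cons, List.prod_cons, ih, List.length_cons, List.sum_cons, List.map_cons,
      List.sum_cons, pow_succ, pow_add, Real.exp_add]
    ring

lemma length_le_sum {ε : ℝ} (hε : 0 < ε) (ls : List ℕ) (hls : ∀ m ∈ ls, 1 ≤ m) :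
    (ls.length : ℝ) ≤ (ls.map fun l : ℕ => (l : ℝ) ^ ε).sum := by
  induction ls with
  | nil => simp
  | cons m ms ih =>
    rw [List.length_cons, List.map_cons, List.sum_cons]
    have h1 : (1 : ℝ) ≤ (m : ℝ) ^ ε := by
      apply Real.one_le_rpow _ hε.le
      exact_mod_cast hls m List.mem_cons_self
    have := ih fun k hk => hls k (List.mem_cons_of_mem _ hk)
    push_cast
    linarith

/-- lower bound for binomial coefficients -/
lemma pow_le_choose' {G s k : ℕ} (hs : 1 ≤ s) (hk : (G + 1) * s ≤ k) : G ^ s ≤ (k + 1).choose s := by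
  have h1 : (G * s) ^ s ≤ (k + 1 + 1 - s) ^ s := by
    apply Nat.pow_le_pow_left
    have : (G + 1) * s = G * s + s := by ring
    omega
  have h2 := Nat.pow_sub_le_descFactorial (k + 1) s
  rw [Nat.descFactorial_eq_factorial_mul_choose] at h2
  have h3 := Nat.factorial_le_pow s
  have h4 : G ^ s * s ^ s ≤ (k + 1).choose s * s ^ s := by
    calc G ^ s * s ^ s = (G * s) ^ s := (mul_pow _ _ _).symm
      _ ≤ s.factorial * (k + 1).choose s := h1.trans h2
      _ ≤ s ^ s * (k + 1).choose s := Nat.mul_le_mul_right _ h3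
      _ = _ := mul_comm _ _
  exact Nat.le_of_mul_le_mul_right h4 (by positivity)

/-- **Contacts between blocks.** For every `ε ∈ (0,1]` and `A` there is `C` such that for every
partition of the times `0, ..., n` in consecutive intervals of lengths `ls` and every
`Y ≥ ∑ l^ε`, the probability of at least `C Y` contacts between different intervals is at most
`exp(-A Y)`. -/
theorem blocks_bound (ε : ℝ) (hε : 0 < ε) (hε1 : ε ≤ 1) (A : ℝ) (hA : 0 ≤ A) :
    ∃ C : ℝ, 0 < C ∧ ∀ (n : ℕ) (ls : List ℕ), (∀ m ∈ ls, 1 ≤ m) → ls.sum = n + 1 →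
    ∀ Y : ℝ, (ls.map fun l : ℕ => (l : ℝ) ^ ε).sum ≤ Y → ∀ u : Site,
    (((walks n u).filter fun l => C * Y ≤ ((con (cut ls l)).card : ℝ)).card : ℝ)
      ≤ Real.exp (-(A * Y)) * cc n := by
  classical
  obtain ⟨A₀, hA₀, hcc⟩ := cc_all ε hε
  have hmu := mu_pos
  set q : ℝ := 1 + Real.log (2 * mu) with hq
  have hmu1 := one_le_mu
  have hq0 : 0 ≤ q := by
    have := Real.log_nonneg (by linarith : (1 : ℝ) ≤ 2 * mu)
    linarith
  have hq2 : mu * Real.exp (1 - q) ≤ 1 / 2 := by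
    have e : (1 : ℝ) - q = -Real.log (2 * mu) := by rw [hq]; ring
    rw [e, Real.exp_neg, Real.exp_log (by linarith)]
    rw [mul_inv_le_iff₀ (by linarith)]
    linarith
  set g : ℝ := 9 + 2 * q + Real.log (8 * A₀) + 1 + Real.log (400 * mu) + A with hg
  have hl1 : 0 ≤ Real.log (8 * A₀) := Real.log_nonneg (by linarith)
  have hl2 : 0 ≤ Real.log (400 * mu) := Real.log_nonneg (by linarith)
  obtain ⟨G, hG⟩ := exists_nat_ge (Real.exp g)
  refine ⟨201 + 80000 * (G + 1), by positivity, ?_⟩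
  intro n ls hls hn Y hY u
  set Y₀ : ℝ := (ls.map fun l : ℕ => (l : ℝ) ^ ε).sum with hY₀
  have hne : ls ≠ [] := by
    rintro rfl
    simp at hn
  have hB1 : 1 ≤ ls.length := List.length_pos_iff.2 hne
  have hBY : (ls.length : ℝ) ≤ Y := (length_le_sum hε ls hls).trans hY
  have hY1 : 1 ≤ Y := le_trans (by exact_mod_cast hB1) hBY
  set s : ℕ := ⌈Y⌉₊ with hs
  have hsY : Y ≤ s := Nat.le_ceil Y
  have hs2 : (s : ℝ) ≤ 2 * Y := by
    have := (Nat.ceil_lt_add_one (by linarith : 0 ≤ Y)).le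
    linarith
  have hs1 : 1 ≤ s := by
    have : (1 : ℝ) ≤ s := hY1.trans hsY
    exact_mod_cast this
  set k : ℕ := (G + 1) * s with hk
  have hmany := card_many hls hn u s k
  set N : ℕ := ((walks n u).filter fun l =>
      200 * ls.length + 40000 * k < (con (cut ls l)).card).card with hN
  have hsub : (((walks n u).filter fun l => (201 + 80000 * ((G : ℝ) + 1)) * Y
      ≤ ((con (cut ls l)).card : ℝ)).card : ℝ) ≤ N := by
    rw [hN]
    have : ((walks n u).filter fun l => (201 + 80000 * ((G : ℝ) + 1)) * Y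
      ≤ ((con (cut ls l)).card : ℝ)) ⊆ (walks n u).filter fun l =>
      200 * ls.length + 40000 * k < (con (cut ls l)).card := by
      intro l hl
      rw [Finset.mem_filter] at hl ⊢
      refine ⟨hl.1, ?_⟩
      have h1 := hl.2
      have h2 : ((200 * ls.length + 40000 * k : ℕ) : ℝ) < ((con (cut ls l)).card : ℝ) := by
        refine lt_of_lt_of_le ?_ h1
        rw [hk]
        push_cast
        have hGn : (0 : ℝ) ≤ G := Nat.cast_nonneg _
        nlinarith
      exact_mod_cast h2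
    exact_mod_cast Finset.card_le_card this
  have hfam := card_fam (A := 2 * A₀) (q := q) hq0 (fun l => mu ^ l * Real.exp ((l : ℝ) ^ ε))
    (fun l E hl => block_sum hε hε1 hA₀ hcc hq2 l E hl) ls hls (2 * s) u
  rw [show (fun l : ℕ => 4 * (2 * A₀) * (mu ^ l * Real.exp ((l : ℝ) ^ ε)))
    = fun l : ℕ => (8 * A₀) * (mu ^ l * Real.exp ((l : ℝ) ^ ε)) by
      funext l; ring, prod_blocks, hn] at hfam
  have hmany' : ((k + 1).choose s : ℝ) * N ≤ 400 * (2 ^ (12 * s) * ((fam ls (2 * s) u).card : ℝ)) := by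
    exact_mod_cast hmany
  have hch : (G : ℝ) ^ s ≤ ((k + 1).choose s : ℝ) := by
    exact_mod_cast pow_le_choose' hs1 (le_refl _)
  have hGs : Real.exp (g * s) ≤ (G : ℝ) ^ s := by
    rw [mul_comm, Real.exp_nat_mul]
    exact pow_le_pow_left₀ (Real.exp_pos _).le hG s
  have hmun : mu ^ (n + 1) ≤ mu * cc n := by
    rw [pow_succ, mul_comm]
    exact mul_le_mul_of_nonneg_left (mu_pow_le n) hmu.le
  have h12 : (2 : ℝ) ^ (12 * s) ≤ Real.exp (9 * s) := by
    have h2 : (2 : ℝ) ^ (12 * s) = (2 ^ 12) ^ s := by rw [pow_mul]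
    rw [h2, mul_comm (9 : ℝ), Real.exp_nat_mul]
    apply pow_le_pow_left₀ (by norm_num)
    have h3 : Real.exp 9 = Real.exp 1 ^ 9 := by rw [← Real.exp_nat_mul]; norm_num
    rw [h3]
    have h4 := Real.exp_one_gt_d9
    calc (2 : ℝ) ^ 12 ≤ 2.7 ^ 9 := by norm_num
      _ ≤ Real.exp 1 ^ 9 := pow_le_pow_left₀ (by norm_num) (by linarith) 9
  have hYB : (8 * A₀) ^ ls.length ≤ Real.exp (Real.log (8 * A₀) * Y) := by
    have h1 : (8 * A₀) ^ ls.length = Real.exp (Real.log (8 * A₀) * ls.length) := by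
      rw [mul_comm (Real.log (8 * A₀)), Real.exp_nat_mul, Real.exp_log (by linarith)]
    rw [h1]
    apply Real.exp_le_exp.2
    exact mul_le_mul_of_nonneg_left hBY hl1
  have h400 : 400 * mu ≤ Real.exp (Real.log (400 * mu) * Y) := by
    calc 400 * mu = Real.exp (Real.log (400 * mu)) := (Real.exp_log (by linarith)).symm
      _ ≤ Real.exp (Real.log (400 * mu) * Y) := Real.exp_le_exp.2 (by nlinarith)
  have hccn : (0 : ℝ) < cc n := by exact_mod_cast cc_pos n
  -- main estimate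
  have hN0 : (0 : ℝ) ≤ N := Nat.cast_nonneg _
  have main : Real.exp (g * s) * N ≤ Real.exp (9 * s + 2 * q * s + (Real.log (8 * A₀) + 1 +
      Real.log (400 * mu)) * Y) * cc n := by
    calc Real.exp (g * s) * N ≤ ((k + 1).choose s : ℝ) * N :=
          mul_le_mul_of_nonneg_right (hGs.trans hch) hN0
      _ ≤ 400 * (2 ^ (12 * s) * ((fam ls (2 * s) u).card : ℝ)) := hmany'
      _ ≤ 400 * (Real.exp (9 * s) * (Real.exp (q * (2 * s : ℕ)) *
          (Real.exp (Real.log (8 * A₀) * Y) * ((mu * cc n) * Real.exp Y)))) := by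
          apply mul_le_mul_of_nonneg_left _ (by norm_num)
          apply mul_le_mul h12 _ (Nat.cast_nonneg _) (Real.exp_pos _).le
          refine hfam.trans ?_
          apply mul_le_mul_of_nonneg_left _ (Real.exp_pos _).le
          apply mul_le_mul hYB _ (by positivity) (Real.exp_pos _).le
          apply mul_le_mul hmun (Real.exp_le_exp.2 hY) (Real.exp_pos _).le (by positivity)
      _ = (400 * mu) * (Real.exp (9 * s) * (Real.exp (q * (2 * s : ℕ)) *
          (Real.exp (Real.log (8 * A₀) * Y) * Real.exp Y))) * cc n := by ring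
      _ ≤ Real.exp (Real.log (400 * mu) * Y) * (Real.exp (9 * s) * (Real.exp (q * (2 * s : ℕ)) *
          (Real.exp (Real.log (8 * A₀) * Y) * Real.exp Y))) * cc n := by
          apply mul_le_mul_of_nonneg_right _ hccn.le
          exact mul_le_mul_of_nonneg_right h400 (by positivity)
      _ = _ := by
          rw [← Real.exp_add, ← Real.exp_add, ← Real.exp_add, ← Real.exp_add]
          congr 2
          push_cast
          ring
  have hfin : (N : ℝ) ≤ Real.exp (-(A * Y)) * cc n := by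
    have h1 : Real.exp (9 * s + 2 * q * s + (Real.log (8 * A₀) + 1 + Real.log (400 * mu)) * Y)
        ≤ Real.exp (g * s) * Real.exp (-(A * Y)) := by
      rw [← Real.exp_add]
      apply Real.exp_le_exp.2
      rw [hg]
      nlinarith
    have h2 : Real.exp (g * s) * N ≤ Real.exp (g * s) * (Real.exp (-(A * Y)) * cc n) := by
      refine main.trans ?_
      rw [← mul_assoc]
      exact mul_le_mul_of_nonneg_right h1 hccn.le
    exact le_of_mul_le_mul_left h2 (Real.exp_pos _)
  exact hsub.trans hfin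

end Pool.Agent.SawCon
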