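import Pool.Agent.SawCon.Fam

/-!
Counting: walks with many places are few.
-/

set_option autoImplicit false

open Pool.Agent.SawKes

namespace Pool.Agent.SawCon

open scoped Classical in
/-- sites lying in two blocks, with the number of one of the blocks -/
noncomputable def dbl (W : List (List Site)) : Finset (ℕ × Site) :=
  (Finset.range W.length ×ˢ W.flatten.toFinset).filter
    fun p => p.2 ∈ blk W p.1 ∧ ∃ b', b' ≠ p.1 ∧ p.2 ∈ blk W b'

open scoped Classical in
/-- the places of kind `κ` and residue `r` -/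
noncomputable def PL (κ : Kind) (r : ℤ × ℤ) (W : List (List Site)) : Finset (ℕ × Site) :=
  (Finset.range W.length ×ˢ W.flatten.toFinset).filter
    fun p => res p.2 = r ∧ Pl κ (blk W p.1) p.2 ∧
      ∃ d ∈ κ.o, d ≠ 0 ∧ ∃ b', b' ≠ p.1 ∧ p.2 + d ∈ blk W b'

lemma mem_blk {W : List (List Site)} {b : ℕ} {z : Site} (h : z ∈ blk W b) :
    b < W.length ∧ z ∈ W.flatten := by
  unfold blk at h
  by_cases hb : b < W.length
  · refine ⟨hb, ?_⟩
    rw [List.getD_eq_getElem _ _ hb] at h
    exact List.mem_flatten.2 ⟨_, List.getElem_mem _, h⟩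
  · rw [List.getD_eq_default _ _ (by omega)] at h
    simp at h

lemma mem_flatten_blk {W : List (List Site)} {z : Site} (h : z ∈ W.flatten) :
    ∃ b, z ∈ blk W b := by
  obtain ⟨V, hV, hz⟩ := List.mem_flatten.1 h
  obtain ⟨b, hb, rfl⟩ := List.getElem_of_mem hV
  exact ⟨b, by unfold blk; rwa [List.getD_eq_getElem _ _ hb]⟩

lemma mem_dbl {W : List (List Site)} {p : ℕ × Site} :
    p ∈ dbl W ↔ p.2 ∈ blk W p.1 ∧ ∃ b', b' ≠ p.1 ∧ p.2 ∈ blk W b' := by
  classical
  unfold dbl
  rw [Finset.mem_filter, Finset.mem_product, Finset.mem_range, List.mem_toFinset]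
  constructor
  · exact fun h => h.2
  · intro h
    exact ⟨mem_blk h.1, h⟩

lemma mem_PL {κ : Kind} {r : ℤ × ℤ} {W : List (List Site)} {p : ℕ × Site} :
    p ∈ PL κ r W ↔ res p.2 = r ∧ Pl κ (blk W p.1) p.2 ∧
      ∃ d ∈ κ.o, d ≠ 0 ∧ ∃ b', b' ≠ p.1 ∧ p.2 + d ∈ blk W b' := by
  classical
  unfold PL
  rw [Finset.mem_filter, Finset.mem_product, Finset.mem_range, List.mem_toFinset]
  constructor
  · exact fun h => h.2
  · intro h
    exact ⟨mem_blk h.2.1.mem, h⟩

lemma blk_nodup {W : List (List Site)} (h : W.flatten.Nodup) (b : ℕ) : (blk W b).Nodup := by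
  unfold blk
  by_cases hb : b < W.length
  · rw [List.getD_eq_getElem _ _ hb]
    exact (List.nodup_flatten.1 h).1 _ (List.getElem_mem _)
  · rw [List.getD_eq_default _ _ (by omega)]
    simp

lemma blk_disj {W : List (List Site)} (h : W.flatten.Nodup) {b b' : ℕ} {z : Site}
    (h1 : z ∈ blk W b) (h2 : z ∈ blk W b') : b = b' := by
  have hb := (mem_blk h1).1
  have hb' := (mem_blk h2).1
  unfold blk at h1 h2
  rw [List.getD_eq_getElem _ _ hb] at h1
  rw [List.getD_eq_getElem _ _ hb'] at h2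
  have hp := List.pairwise_iff_getElem.1 (List.nodup_flatten.1 h).2
  rcases lt_trichotomy b b' with hlt | rfl | hlt
  · exact absurd h2 (hp b b' hb hb' hlt h1)
  · rfl
  · exact absurd h1 (hp b' b hb' hb hlt h2)

/-- the places of `S` in block `b` -/
def at' (S : Finset (ℕ × Site)) (b : ℕ) : Finset Site := (S.filter fun p => p.1 = b).image Prod.snd

lemma mem_at' {S : Finset (ℕ × Site)} {b : ℕ} {v : Site} : v ∈ at' S b ↔ (b, v) ∈ S := by
  unfold at'
  simp only [Finset.mem_image, Finset.mem_filter]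
  constructor
  · rintro ⟨p, ⟨h1, rfl⟩, rfl⟩
    exact h1
  · intro h
    exact ⟨(b, v), ⟨h, rfl⟩, rfl⟩

lemma sum_at' (S : Finset (ℕ × Site)) (n : ℕ) :
    ∑ b ∈ Finset.range n, (at' S b).card ≤ S.card := by
  have h1 : ∀ b ∈ Finset.range n, (at' S b).card ≤ (S.filter fun p => p.1 = b).card :=
    fun b _ => Finset.card_image_le
  refine (Finset.sum_le_sum h1).trans ?_
  rw [← Finset.card_biUnion]
  · exact Finset.card_le_card (Finset.biUnion_subset.2 fun b _ => Finset.filter_subset _ _)
  · intro b _ b' _ hne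
    rw [Function.onFun, Finset.disjoint_left]
    intro p hp hp'
    rw [Finset.mem_filter] at hp hp'
    exact hne (hp.2.symm.trans hp'.2)

variable {κ : Kind} {r : ℤ × ℤ} {W : List (List Site)} {S : Finset (ℕ × Site)}

lemma good_at' (hS : S ⊆ PL κ r W) (b : ℕ) : Good κ (at' S b) (blk W b) := by
  constructor
  · intro v hv
    exact (mem_PL.1 (hS (mem_at'.1 hv))).2.1
  · intro v hv w hw
    rw [(mem_PL.1 (hS (mem_at'.1 hv))).1, (mem_PL.1 (hS (mem_at'.1 hw))).1]

/-- the surgery can be undone -/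
lemma surgs_inj (hκ : κ.Ok) {W₁ W₂ : List (List Site)} (h1 : S ⊆ PL κ r W₁) (h2 : S ⊆ PL κ r W₂)
    (he : surgs κ (at' S) W₁ = surgs κ (at' S) W₂) : W₁ = W₂ := by
  have hl : W₁.length = W₂.length := by
    rw [← length_surgs κ (at' S) W₁, ← length_surgs κ (at' S) W₂, he]
  apply List.ext_getElem hl
  intro b hb1 hb2
  have e1 : blk W₁ b = W₁[b] := List.getD_eq_getElem _ _ hb1
  have e2 : blk W₂ b = W₂[b] := List.getD_eq_getElem _ _ hb2
  rw [← e1, ← e2]
  have h3 := congrArg (fun W => blk W b) he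
  simp only [blk_surgs] at h3
  rw [← (good_at' h1 b).decode hκ, ← (good_at' h2 b).decode hκ, h3]

/-- the number of double sites after the surgery -/
lemma card_dbl (hW : W.flatten.Nodup) (ho : (κ.o.toFinset.erase 0).card ≤ 2) :
    (dbl (surgs κ (at' S) W)).card ≤ 4 * S.card := by
  classical
  set New : Finset (ℕ × Site) := S.biUnion fun p =>
    (κ.o.toFinset.erase 0).image fun d => (p.1, p.2 + d) with hNew
  set Old : Finset (ℕ × Site) := (Finset.range W.length ×ˢ W.flatten.toFinset).filter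
    fun p => p.2 ∈ blk W p.1 ∧ p.2 ∈ New.image Prod.snd with hOld
  have hN : New.card ≤ 2 * S.card := by
    refine Finset.card_biUnion_le.trans ?_
    refine (Finset.sum_le_sum (g := fun _ => 2) fun p _ => Finset.card_image_le.trans ho).trans ?_
    rw [Finset.sum_const, smul_eq_mul, mul_comm]
  have hO : Old.card ≤ New.card := by
    refine le_trans ?_ (Finset.card_image_le (s := New) (f := Prod.snd))
    apply Finset.card_le_card_of_injOn Prod.snd
    · intro p hp
      rw [Finset.mem_coe, hOld, Finset.mem_filter] at hp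
      exact hp.2.2
    · intro p hp p' hp' he
      rw [Finset.mem_coe, hOld, Finset.mem_filter] at hp hp'
      have h1 := hp.2.1
      have h2 := hp'.2.1
      rw [← he] at h2
      exact Prod.ext (blk_disj hW h1 h2) he
  have key : ∀ b z, z ∈ blk (surgs κ (at' S) W) b → z ∈ blk W b ∨ (b, z) ∈ New := by
    intro b z hz
    rw [blk_surgs, mem_surg] at hz
    rcases hz with ⟨h, -⟩ | ⟨v, hv, hvS, d, hd, rfl⟩
    · exact Or.inl h
    · by_cases hd0 : d = 0
      · subst hd0; rw [add_zero]; exact Or.inl hv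
      · right
        rw [hNew, Finset.mem_biUnion]
        refine ⟨(b, v), mem_at'.1 hvS, ?_⟩
        rw [Finset.mem_image]
        exact ⟨d, Finset.mem_erase.2 ⟨hd0, List.mem_toFinset.2 hd⟩, rfl⟩
  have hsub : dbl (surgs κ (at' S) W) ⊆ New ∪ Old := by
    intro p hp
    rw [mem_dbl] at hp
    obtain ⟨h1, b', hb', h2⟩ := hp
    rw [Finset.mem_union]
    rcases key _ _ h1 with h1 | h1
    · rcases key _ _ h2 with h2 | h2
      · exact absurd (blk_disj hW h2 h1) hb'
      · right
        rw [hOld, Finset.mem_filter, Finset.mem_product, Finset.mem_range, List.mem_toFinset]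
        exact ⟨mem_blk h1, h1, Finset.mem_image.2 ⟨_, h2, rfl⟩⟩
    · exact Or.inl h1
  calc (dbl (surgs κ (at' S) W)).card ≤ (New ∪ Old).card := Finset.card_le_card hsub
    _ ≤ New.card + Old.card := Finset.card_union_le _ _
    _ ≤ 4 * S.card := by omega

/-- sites where the surgery may have taken place -/
noncomputable def cand (κ : Kind) (W : List (List Site)) : Finset (ℕ × Site) :=
  (dbl W).biUnion fun p => κ.o.toFinset.image fun d => (p.1, p.2 - d)

lemma card_cand (κ : Kind) (W : List (List Site)) (ho : κ.o.toFinset.card ≤ 3) :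
    (cand κ W).card ≤ 3 * (dbl W).card := by
  refine Finset.card_biUnion_le.trans ?_
  refine (Finset.sum_le_sum (g := fun _ => 3) fun p _ => Finset.card_image_le.trans ho).trans ?_
  rw [Finset.sum_const, smul_eq_mul, mul_comm]

lemma subset_cand (hκ : κ.Ok) (hS : S ⊆ PL κ r W) : S ⊆ cand κ (surgs κ (at' S) W) := by
  intro p hp
  obtain ⟨h1, h2, d, hd, hd0, b', hb', h3⟩ := mem_PL.1 (hS hp)
  unfold cand
  rw [Finset.mem_biUnion]
  refine ⟨(p.1, p.2 + d), ?_, ?_⟩
  · rw [mem_dbl]
    refine ⟨?_, b', hb', ?_⟩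
    · show p.2 + d ∈ blk (surgs κ (at' S) W) p.1
      rw [blk_surgs, mem_surg]
      exact Or.inr ⟨p.2, h2.mem, mem_at'.2 hp, d, hd, rfl⟩
    · show p.2 + d ∈ blk (surgs κ (at' S) W) b'
      rw [blk_surgs, mem_surg]
      left
      refine ⟨h3, fun hc => hd0 ?_⟩
      have h4 := (mem_PL.1 (hS (mem_at'.1 hc))).1
      have h5 : p.2 = p.2 + d := res_eq (a := d) (b := 0) (by rw [h1]; exact h4.symm)
        (by rw [add_zero]) (hκ.small d hd).1 (hκ.small d hd).2 (by simp) (by simp)
      simpa using h5.symm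
  · rw [Finset.mem_image]
    exact ⟨d, List.mem_toFinset.2 hd, by simp⟩

/-- **Counting walks with many places.** -/
theorem count (hκ : κ.Ok) (ho3 : κ.o.length ≤ 3) (ho : (κ.o.toFinset.erase 0).card ≤ 2)
    {ls : List ℕ} (hls : ∀ m ∈ ls, 1 ≤ m) {n : ℕ} (hn : ls.sum = n + 1) (u : Site) (s : ℕ)
    (r : ℤ × ℤ) :
    ∑ l ∈ walks n u, (PL κ r (cut ls l)).card.choose s ≤ 2 ^ (12 * s) * (fam ls (2 * s) u).card := by
  classical
  set F := (fam ls (2 * s) u).filter fun W => (cand κ W).card ≤ 12 * s with hF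
  have hflat : ∀ l ∈ walks n u, (cut ls l).flatten = l := by
    intro l hl
    exact flatten_cut ls l (by rw [(mem_walks.1 hl).1, hn])
  have h1 : ∑ l ∈ walks n u, (PL κ r (cut ls l)).card.choose s
      = ((walks n u).sigma fun l => (PL κ r (cut ls l)).powersetCard s).card := by
    rw [Finset.card_sigma]
    exact Finset.sum_congr rfl fun l _ => (Finset.card_powersetCard _ _).symm
  have h2 : (F.sigma fun W => (cand κ W).powerset).card ≤ 2 ^ (12 * s) * (fam ls (2 * s) u).card := by
    rw [Finset.card_sigma]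
    refine (Finset.sum_le_sum (g := fun _ => 2 ^ (12 * s)) fun W hW => ?_).trans ?_
    · rw [Finset.card_powerset]
      exact Nat.pow_le_pow_right (by norm_num) (Finset.mem_filter.1 hW).2
    · rw [Finset.sum_const, smul_eq_mul, mul_comm]
      exact Nat.mul_le_mul_left _ (Finset.card_le_card (Finset.filter_subset _ _))
  rw [h1]
  refine le_trans ?_ h2
  apply Finset.card_le_card_of_injOn
    (fun p => (⟨surgs κ (at' p.2) (cut ls p.1), p.2⟩ : (_ : List (List Site)) × Finset (ℕ × Site)))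
  · rintro ⟨l, S⟩ hp
    rw [Finset.mem_coe, Finset.mem_sigma, Finset.mem_powersetCard] at hp
    obtain ⟨hl, hS, hc⟩ := hp
    simp only at hl hS hc
    have hfl := hflat l hl
    obtain ⟨w1, w2, w3, w4⟩ := mem_walks.1 hl
    have hnd : (cut ls l).flatten.Nodup := by rw [hfl]; exact w4
    rw [Finset.mem_coe, Finset.mem_sigma, Finset.mem_powerset, hF, Finset.mem_filter]
    refine ⟨⟨?_, ?_⟩, subset_cand hκ hS⟩
    · refine surgs_mem hκ ls l u _ _ hls (by rw [w1, hn]) w3 w4 (fun _ => w2)
        (fun b => good_at' hS b) ?_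
      have h3 := sum_at' S ls.length
      rw [hc] at h3
      have h4 : κ.o.length - 1 ≤ 2 := by omega
      exact Nat.mul_le_mul h4 h3
    · have h5 := card_cand κ (surgs κ (at' S) (cut ls l)) ((List.toFinset_card_le _).trans ho3)
      have h6 := card_dbl (κ := κ) (S := S) hnd ho
      simp only
      omega
  · rintro ⟨l, S⟩ hp ⟨l', S'⟩ hp' he
    rw [Finset.mem_coe, Finset.mem_sigma, Finset.mem_powersetCard] at hp hp'
    simp only [Sigma.mk.injEq, heq_eq_eq] at he
    obtain ⟨he1, rfl⟩ := he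
    have h3 := surgs_inj hκ hp.2.1 hp'.2.1 he1
    have h4 : l = l' := by
      rw [← hflat l hp.1, ← hflat l' hp'.1, h3]
    subst h4
    rfl

end Pool.Agent.SawCon
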