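import Pool.Agent.SawCon.Surg

/-!
Families of blocks: lists of self-avoiding walks, each starting next to the end of the previous one.
-/

set_option autoImplicit false

open Pool.Agent.SawKes

namespace Pool.Agent.SawCon

/-- the four unit vectors -/
def D4 : Finset Site := {(1, 0), (-1, 0), (0, 1), (0, -1)}

lemma mem_D4 {d : Site} : d ∈ D4 ↔ Adj 0 d := by
  obtain ⟨a, b⟩ := d
  simp only [D4, Finset.mem_insert, Finset.mem_singleton, Prod.mk.injEq, Adj, sub_zero]
  constructor
  · rintro (⟨rfl, rfl⟩ | ⟨rfl, rfl⟩ | ⟨rfl, rfl⟩ | ⟨rfl, rfl⟩) <;> decide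
  · intro h
    rcases abs_cases a with ⟨h1, h1'⟩ | ⟨h1, h1'⟩ <;> rcases abs_cases b with ⟨h2, h2'⟩ | ⟨h2, h2'⟩ <;>
      omega

lemma adj_iff {p q : Site} : Adj p q ↔ q - p ∈ D4 := by
  rw [mem_D4]
  unfold Adj
  rw [sub_zero]

lemma adj_symm {p q : Site} (h : Adj p q) : Adj q p := by
  unfold Adj at *
  rw [← h]
  simp only [Prod.fst_sub, Prod.snd_sub]
  rw [abs_sub_comm q.1 p.1, abs_sub_comm q.2 p.2]

open scoped Classical in
/-- families of blocks of lengths at least `ℓ`, with at most `E` extra sites -/
noncomputable def fam : List ℕ → ℕ → Site → Finset (List (List Site))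
  | [], _, _ => {[]}
  | l :: ls, E, u => (Finset.range (E + 1)).biUnion fun k => (walks (l + k - 1) u).biUnion fun V =>
      D4.biUnion fun d => (fam ls (E - k) (V.getLast?.getD 0 + d)).image fun W => V :: W

lemma mem_fam_cons {l : ℕ} {ls : List ℕ} {E : ℕ} {u : Site} {W : List (List Site)} :
    W ∈ fam (l :: ls) E u ↔ ∃ k ≤ E, ∃ V ∈ walks (l + k - 1) u, ∃ d ∈ D4,
      ∃ W' ∈ fam ls (E - k) (V.getLast?.getD 0 + d), V :: W' = W := by
  simp only [fam, Finset.mem_biUnion, Finset.mem_range, Finset.mem_image, Nat.lt_succ_iff]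

open scoped Classical in
/-- the number of families -/
theorem card_fam {A q : ℝ} (hq : 0 ≤ q) (f : ℕ → ℝ)
    (hf : ∀ (l E : ℕ), 1 ≤ l → ∑ k ∈ Finset.range (E + 1), (cc (l + k - 1) : ℝ) * Real.exp (-(q * k))
      ≤ A * f l)
    (ls : List ℕ) (hls : ∀ l ∈ ls, 1 ≤ l) (E : ℕ) (u : Site) :
    ((fam ls E u).card : ℝ) ≤ Real.exp (q * E) * (ls.map fun l => 4 * A * f l).prod := by
  induction ls generalizing E u with
  | nil =>
    simp only [fam, Finset.card_singleton, Nat.cast_one, List.map_nil, List.prod_nil, mul_one]
    exact Real.one_le_exp (by positivity)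
  | cons l ls ih =>
    have ih' := fun E u => ih (fun l hl => hls l (List.mem_cons_of_mem _ hl)) E u
    set P : ℝ := (ls.map fun l => 4 * A * f l).prod with hP
    have hP0 : 0 ≤ P := by
      have h0 := ih' 0 0
      simp only [Nat.cast_zero, mul_zero, Real.exp_zero, one_mul] at h0
      exact (Nat.cast_nonneg _).trans h0
    have step : ((fam (l :: ls) E u).card : ℝ) ≤ ∑ k ∈ Finset.range (E + 1),
        (cc (l + k - 1) : ℝ) * (4 * (Real.exp (q * (E - k)) * P)) := by
      have h1 : (fam (l :: ls) E u).card ≤ ∑ k ∈ Finset.range (E + 1),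
          ∑ V ∈ walks (l + k - 1) u, ∑ d ∈ D4, (fam ls (E - k) (V.getLast?.getD 0 + d)).card := by
        conv_lhs => rw [fam]
        refine Finset.card_biUnion_le.trans (Finset.sum_le_sum fun k _ => ?_)
        refine Finset.card_biUnion_le.trans (Finset.sum_le_sum fun V _ => ?_)
        refine Finset.card_biUnion_le.trans (Finset.sum_le_sum fun d _ => ?_)
        exact Finset.card_image_le (f := fun W : List (List Site) => V :: W)
          (s := fam ls (E - k) (V.getLast?.getD 0 + d))
      have h2 : ((fam (l :: ls) E u).card : ℝ) ≤ ∑ k ∈ Finset.range (E + 1),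
          ∑ V ∈ walks (l + k - 1) u, ∑ d ∈ D4,
            ((fam ls (E - k) (V.getLast?.getD 0 + d)).card : ℝ) := by
        exact_mod_cast h1
      refine h2.trans (Finset.sum_le_sum fun k hk => ?_)
      rw [Finset.mem_range, Nat.lt_succ_iff] at hk
      have h3 : ∀ V ∈ walks (l + k - 1) u, ∑ d ∈ D4,
          ((fam ls (E - k) (V.getLast?.getD 0 + d)).card : ℝ)
          ≤ 4 * (Real.exp (q * (E - k)) * P) := by
        intro V _
        have h4 : ∀ d ∈ D4, ((fam ls (E - k) (V.getLast?.getD 0 + d)).card : ℝ)
            ≤ Real.exp (q * (E - k)) * P := by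
          intro d _
          have := ih' (E - k) (V.getLast?.getD 0 + d)
          rwa [Nat.cast_sub hk] at this
        refine (Finset.sum_le_sum h4).trans ?_
        rw [Finset.sum_const, nsmul_eq_mul]
        have : D4.card = 4 := by decide
        rw [this]
        norm_num
      refine (Finset.sum_le_sum h3).trans ?_
      rw [Finset.sum_const, nsmul_eq_mul, card_walks]
    refine step.trans ?_
    have e : ∀ k ∈ Finset.range (E + 1), (cc (l + k - 1) : ℝ) * (4 * (Real.exp (q * (E - k)) * P))
        = (4 * Real.exp (q * E) * P) * ((cc (l + k - 1) : ℝ) * Real.exp (-(q * k))) := by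
      intro k _
      rw [show q * ((E : ℝ) - k) = q * E + -(q * k) by ring, Real.exp_add]
      ring
    rw [Finset.sum_congr rfl e, ← Finset.mul_sum]
    have h5 := mul_le_mul_of_nonneg_left (hf l E (hls l List.mem_cons_self))
      (show 0 ≤ 4 * Real.exp (q * E) * P by positivity)
    refine h5.trans (le_of_eq ?_)
    rw [List.map_cons, List.prod_cons]
    ring

/-- cutting a list in pieces of given lengths -/
def cut {α : Type*} : List ℕ → List α → List (List α)
  | [], _ => []
  | m :: ms, l => l.take m :: cut ms (l.drop m)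

@[simp] lemma length_cut {α : Type*} (ls : List ℕ) (l : List α) : (cut ls l).length = ls.length := by
  induction ls generalizing l with
  | nil => rfl
  | cons m ms ih => simp [cut, ih]

lemma flatten_cut {α : Type*} (ls : List ℕ) (l : List α) (h : l.length = ls.sum) :
    (cut ls l).flatten = l := by
  induction ls generalizing l with
  | nil =>
    simp only [List.sum_nil, List.length_eq_zero_iff] at h
    subst h
    rfl
  | cons m ms ih =>
    simp only [cut, List.flatten_cons]
    rw [ih (l.drop m) (by rw [List.length_drop, h]; simp)]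
    exact List.take_append_drop m l

/-- surgery on all blocks -/
def surgs (κ : Kind) (T : ℕ → Finset Site) (W : List (List Site)) : List (List Site) :=
  W.mapIdx fun b V => surg κ (T b) V

/-- the block with number `b` -/
def blk (W : List (List Site)) (b : ℕ) : List Site := W.getD b []

lemma blk_cons_zero (V : List Site) (W : List (List Site)) : blk (V :: W) 0 = V := rfl

lemma blk_cons_succ (V : List Site) (W : List (List Site)) (b : ℕ) :
    blk (V :: W) (b + 1) = blk W b := rfl

@[simp] lemma blk_nil (b : ℕ) : blk [] b = [] := rfl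

lemma blk_surgs (κ : Kind) (T : ℕ → Finset Site) (W : List (List Site)) (b : ℕ) :
    blk (surgs κ T W) b = surg κ (T b) (blk W b) := by
  induction W generalizing T b with
  | nil => rfl
  | cons V W ih =>
    unfold surgs
    rw [List.mapIdx_cons]
    cases b with
    | zero => rfl
    | succ b =>
      rw [blk_cons_succ, blk_cons_succ]
      exact ih (fun b => T (b + 1)) b

lemma length_surgs (κ : Kind) (T : ℕ → Finset Site) (W : List (List Site)) :
    (surgs κ T W).length = W.length := by
  simp [surgs]

theorem surgs_mem {κ : Kind} (hκ : κ.Ok) (ls : List ℕ) :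
    ∀ (l : List Site) (u : Site) (E : ℕ) (T : ℕ → Finset Site), (∀ m ∈ ls, 1 ≤ m) →
    l.length = ls.sum → l.IsChain Adj → l.Nodup → (ls ≠ [] → l.head? = some u) →
    (∀ b, Good κ (T b) (blk (cut ls l) b)) →
    (κ.o.length - 1) * (∑ b ∈ Finset.range ls.length, (T b).card) ≤ E →
    surgs κ T (cut ls l) ∈ fam ls E u := by
  induction ls with
  | nil =>
    intro l u E T _ _ _ _ _ _ _
    simp [cut, surgs, fam]
  | cons m ms ih =>
    intro l u E T hm hlen hc hn hu hG hE
    rw [List.sum_cons] at hlen
    have hm1 : 1 ≤ m := hm m List.mem_cons_self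
    have hu' : l.head? = some u := hu (by simp)
    have hlm : (l.take m).length = m := by rw [List.length_take]; omega
    have hV : l.take m ∈ walks (m - 1) u := by
      rw [mem_walks]
      refine ⟨by omega, ?_, ?_, ?_⟩
      · rw [List.head?_take, if_neg (by omega)]; exact hu'
      · exact hc.take m
      · exact hn.sublist (List.take_sublist m l)
    have hG0 : Good κ (T 0) (l.take m) := hG 0
    have hcut : surgs κ T (cut (m :: ms) l)
        = surg κ (T 0) (l.take m) :: surgs κ (fun b => T (b + 1)) (cut ms (l.drop m)) := by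
      unfold surgs
      rw [cut, List.mapIdx_cons]
    rw [hcut, mem_fam_cons]
    rw [List.length_cons, Finset.sum_range_succ', mul_add] at hE
    have hw := hG0.walks hκ hV
    have hidx : m - 1 + (κ.o.length - 1) * (T 0).card
        = m + (κ.o.length - 1) * (T 0).card - 1 := by omega
    rw [hidx] at hw
    refine ⟨(κ.o.length - 1) * (T 0).card, by omega, _, hw, ?_⟩
    have hlast := hG0.last (hn.sublist (List.take_sublist m l))
    rw [hlast]
    have hlast2 : (l.take m).getLast?.getD 0 = l[m - 1]'(by omega) := by
      rw [List.getLast?_eq_getElem?, hlm, List.getElem?_eq_getElem (by omega)]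
      simp
    rw [hlast2]
    by_cases hms : ms = []
    · refine ⟨(1, 0), by decide, _, ih (l.drop m) _ _ (fun b => T (b + 1))
        (fun k hk => hm k (List.mem_cons_of_mem _ hk)) ?_ (hc.drop m)
        (hn.sublist (List.drop_sublist m l)) (fun h => absurd hms h) (fun b => hG (b + 1)) ?_, rfl⟩
      · rw [List.length_drop]; omega
      · omega
    · have hml : m < l.length := by
        have : 1 ≤ ms.sum := by
          obtain ⟨a, as, rfl⟩ := List.exists_cons_of_ne_nil hms
          rw [List.sum_cons]
          have := hm a (by simp)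
          omega
        omega
      have hadj : Adj (l[m - 1]'(by omega)) (l[m]'hml) := by
        have := (List.isChain_iff_getElem.1 hc) (m - 1) (by omega)
        have e : m - 1 + 1 = m := by omega
        simp only [e] at this
        exact this
      refine ⟨l[m]'hml - l[m - 1]'(by omega), adj_iff.1 hadj, _, ih (l.drop m) _ _
        (fun b => T (b + 1))
        (fun k hk => hm k (List.mem_cons_of_mem _ hk)) ?_ (hc.drop m)
        (hn.sublist (List.drop_sublist m l)) (fun _ => ?_) (fun b => hG (b + 1)) ?_, rfl⟩
      · rw [List.length_drop]; omega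
      · rw [List.head?_drop, List.getElem?_eq_getElem hml, add_sub_cancel]
      · omega

end Pool.Agent.SawCon
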