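import Pool.Agent.SawCon.Part

/-!
Consequences: contacts at large time distance, and contacts between a subwalk and the rest.
-/

set_option autoImplicit false

open Pool.Agent.SawKes Pool.Agent.SawMrg Pool.Agent.SawLim

namespace Pool.Agent.SawCon

open Finset in
/-- at most `k` levels, each of size at most `N` -/
lemma sum_levels_le {ε : ℝ} (hε : 0 < ε) {n k : ℕ} {N : ℝ} {β : ℕ → ℕ}
    (hk : ((range (n + 1)).image β).card ≤ k) (hN0 : 0 ≤ N)
    (hN : ∀ b, (((range (n + 1)).filter fun i => β i = b).card : ℝ) ≤ N) :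
    ∑ b ∈ (range (n + 1)).image β, (((range (n + 1)).filter fun i => β i = b).card : ℝ) ^ ε
      ≤ k * N ^ ε := by
  have h1 : ∀ b ∈ (range (n + 1)).image β,
      (((range (n + 1)).filter fun i => β i = b).card : ℝ) ^ ε ≤ N ^ ε :=
    fun b _ => Real.rpow_le_rpow (Nat.cast_nonneg _) (hN b) hε.le
  refine (sum_le_sum h1).trans ?_
  rw [sum_const, nsmul_eq_mul]
  apply mul_le_mul_of_nonneg_right _ (Real.rpow_nonneg hN0 _)
  exact_mod_cast hk

/-- `∑ l^ε` for blocks of length `L` -/
lemma sum_levels_div {ε : ℝ} (hε : 0 < ε) {n L : ℕ} (hL : 1 ≤ L) (hLn : L ≤ n) :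
    ∑ b ∈ (Finset.range (n + 1)).image (fun i => i / L),
      (((Finset.range (n + 1)).filter fun i => i / L = b).card : ℝ) ^ ε
      ≤ 2 * (n * (L : ℝ) ^ (ε - 1)) := by
  have hL0 : (0 : ℝ) < L := by exact_mod_cast hL
  have h1 : ((Finset.range (n + 1)).image (fun i => i / L)).card ≤ n / L + 1 := by
    have : (Finset.range (n + 1)).image (fun i => i / L) ⊆ Finset.range (n / L + 1) := by
      intro b hb
      rw [Finset.mem_image] at hb
      obtain ⟨i, hi, rfl⟩ := hb
      rw [Finset.mem_range] at hi ⊢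
      have : i / L ≤ n / L := Nat.div_le_div_right (by omega)
      omega
    refine (Finset.card_le_card this).trans ?_
    rw [Finset.card_range]
  have h2 : ∀ b, (((Finset.range (n + 1)).filter fun i => i / L = b).card : ℝ) ≤ (L : ℝ) := by
    intro b
    have : (Finset.range (n + 1)).filter (fun i => i / L = b) ⊆ Finset.Ico (b * L) (b * L + L) := by
      intro i hi
      rw [Finset.mem_filter] at hi
      rw [Finset.mem_Ico]
      have h3 := Nat.div_add_mod i L
      have h4 := Nat.mod_lt i hL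
      rw [hi.2] at h3
      have : L * b = b * L := mul_comm _ _
      omega
    have := Finset.card_le_card this
    rw [Nat.card_Ico] at this
    have h5 : b * L + L - b * L = L := by omega
    rw [h5] at this
    exact_mod_cast this
  refine (sum_levels_le hε h1 hL0.le h2).trans ?_
  rw [Real.rpow_sub_one hL0.ne']
  have h3 : ((n / L : ℕ) : ℝ) ≤ (n : ℝ) / L := Nat.cast_div_le
  have h4 : (1 : ℝ) ≤ (n : ℝ) / L := by
    rw [le_div_iff₀ hL0, one_mul]; exact_mod_cast hLn
  have h5 : 0 ≤ (L : ℝ) ^ ε := Real.rpow_nonneg hL0.le _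
  push_cast
  calc (((n / L : ℕ) : ℝ) + 1) * (L : ℝ) ^ ε ≤ (2 * ((n : ℝ) / L)) * (L : ℝ) ^ ε := by
        apply mul_le_mul_of_nonneg_right _ h5
        linarith
    _ = _ := by ring

/-- **contacts at time distance at least `L`** -/
theorem far_contacts (ε : ℝ) (hε : 0 < ε) (hε1 : ε ≤ 1) (A : ℝ) (hA : 0 ≤ A) :
    ∃ C : ℝ, 0 < C ∧ ∀ n L : ℕ, 1 ≤ L → L ≤ n →
    prob n (fun w => C * (n * (L : ℝ) ^ (ε - 1)) ≤ contacts n w fun i j => i + L ≤ j)
      ≤ Real.exp (-(A * (n * (L : ℝ) ^ (ε - 1)))) := by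
  obtain ⟨C, hC, h⟩ := master ε hε hε1 A hA
  refine ⟨2 * C, by positivity, ?_⟩
  intro n L hL hLn
  have hX : 0 ≤ (n : ℝ) * (L : ℝ) ^ (ε - 1) := by positivity
  have h1 := h n (fun i => i / L) (fun i j hij => Nat.div_le_div_right hij)
    (2 * (n * (L : ℝ) ^ (ε - 1))) (sum_levels_div hε hL hLn)
  refine le_trans (prob_mono fun w hw => ?_) (h1.trans ?_)
  · have : ((contacts n w fun i j => i + L ≤ j : ℕ) : ℝ)
        ≤ ((contacts n w fun i j => i / L ≠ j / L : ℕ) : ℝ) := by
      exact_mod_cast contacts_mono (fun i j hij => by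
        have : i / L + 1 ≤ j / L := by
          rw [Nat.le_div_iff_mul_le hL, Nat.add_mul, one_mul]
          have := Nat.div_mul_le_self i L
          omega
        omega)
    linarith
  · apply Real.exp_le_exp.2
    nlinarith

lemma prob_nonneg {n : ℕ} (E : (Fin (n + 1) → ℤ × ℤ) → Prop) : 0 ≤ prob n E := by
  classical
  rw [prob_eq]
  positivity

open scoped Classical in
/-- union bound -/
lemma prob_exists {ι : Type*} {n : ℕ} (T : Finset ι) (E : ι → (Fin (n + 1) → ℤ × ℤ) → Prop) :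
    prob n (fun w => ∃ t ∈ T, E t w) ≤ ∑ t ∈ T, prob n (E t) := by
  have hc : (0 : ℝ) < cc n := by exact_mod_cast cc_pos n
  obtain ⟨F, hF⟩ : ∃ F : (Fin (n + 1) → ℤ × ℤ) → Prop, F = fun w => ∃ t ∈ T, E t w := ⟨_, rfl⟩
  rw [← hF]
  simp only [prob_eq]
  rw [← Finset.sum_div]
  apply div_le_div_of_nonneg_right _ hc.le
  have : (saws n).filter F ⊆ T.biUnion fun t => (saws n).filter (E t) := by
    intro w hw
    rw [Finset.mem_filter, hF] at hw
    obtain ⟨hw, t, ht, hE⟩ := hw
    rw [Finset.mem_biUnion]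
    exact ⟨t, ht, Finset.mem_filter.2 ⟨hw, hE⟩⟩
  have h2 := (Finset.card_le_card this).trans Finset.card_biUnion_le
  exact_mod_cast h2

/-- `(n + 2)^2` is at most `exp(M n^ε)` -/
lemma exists_M (ε : ℝ) (hε : 0 < ε) : ∃ M : ℝ, 0 ≤ M ∧ ∀ n : ℕ, 1 ≤ n →
      (((n : ℝ) + 2) ^ 2) ≤ Real.exp (M * (n : ℝ) ^ ε) := by
  have hl3 := Real.log_nonneg (by norm_num : (1 : ℝ) ≤ 3)
  refine ⟨2 * Real.log 3 + 2 / ε, by positivity, ?_⟩
  intro n hn
  have hn0 : (1 : ℝ) ≤ n := by exact_mod_cast hn
  have hnε : 1 ≤ (n : ℝ) ^ ε := Real.one_le_rpow hn0 hε.le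
  have h1 : Real.log n ≤ (n : ℝ) ^ ε / ε := Real.log_le_rpow_div (by linarith) hε
  have h2 : ((n : ℝ) + 2) ^ 2 ≤ Real.exp (2 * Real.log 3 + 2 * Real.log n) := by
    rw [show 2 * Real.log 3 + 2 * Real.log (n : ℝ) = Real.log 3 + Real.log 3 + (Real.log n +
      Real.log n) by ring, Real.exp_add, Real.exp_add, Real.exp_add,
      Real.exp_log (by norm_num), Real.exp_log (by linarith)]
    nlinarith
  refine h2.trans (Real.exp_le_exp.2 ?_)
  have h3 : Real.log 3 ≤ Real.log 3 * (n : ℝ) ^ ε := by nlinarith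
  have h4 : 2 / ε * (n : ℝ) ^ ε = 2 * ((n : ℝ) ^ ε / ε) := by ring
  rw [add_mul, h4]
  linarith

/-- **mean number of contacts at time distance at least `L`** -/
theorem mean_far (ε : ℝ) (hε : 0 < ε) (hε1 : ε ≤ 1) :
    ∃ C : ℝ, 0 < C ∧ ∀ n L : ℕ, 1 ≤ L → L ≤ n →
    avg n (fun w => (contacts n w fun i j => i + L ≤ j : ℝ)) ≤ C * (n * (L : ℝ) ^ (ε - 1)) := by
  classical
  obtain ⟨M, hM0, hM⟩ := exists_M ε hε
  obtain ⟨C, hC, h⟩ := far_contacts ε hε hε1 M hM0
  refine ⟨C + 1, by positivity, ?_⟩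
  intro n L hL hLn
  have hn : 1 ≤ n := hL.trans hLn
  have hn0 : (1 : ℝ) ≤ n := by exact_mod_cast hn
  have hL0 : (1 : ℝ) ≤ L := by exact_mod_cast hL
  set X : ℝ := n * (L : ℝ) ^ (ε - 1) with hX
  have hXn : (n : ℝ) ^ ε ≤ X := by
    have h1 : (n : ℝ) ^ (ε - 1) ≤ (L : ℝ) ^ (ε - 1) :=
      Real.rpow_le_rpow_of_nonpos (by linarith) (by exact_mod_cast hLn) (by linarith)
    have h2 : (n : ℝ) ^ ε = n * (n : ℝ) ^ (ε - 1) := by
      rw [Real.rpow_sub_one (by positivity)]
      field_simp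
    rw [h2, hX]
    exact mul_le_mul_of_nonneg_left h1 (by positivity)
  have hX1 : 1 ≤ X := (Real.one_le_rpow hn0 hε.le).trans hXn
  have hp := h n L hL hLn
  rw [← hX] at hp
  rw [prob_eq] at hp
  have hc : (0 : ℝ) < cc n := by exact_mod_cast cc_pos n
  rw [avg_eq, card_saws, div_le_iff₀ hc]
  have htriv : ∀ w : Fin (n + 1) → ℤ × ℤ, ((contacts n w fun i j => i + L ≤ j : ℕ) : ℝ)
      ≤ ((n : ℝ) + 2) ^ 2 := by
    intro w
    have h1 : (contacts n w fun i j => i + L ≤ j) ≤ Nat.card (Fin (n + 1) × Fin (n + 1)) := by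
      unfold contacts
      exact Nat.card_le_card_of_injective _ Subtype.val_injective
    rw [Nat.card_prod, Nat.card_fin] at h1
    have h2 : ((contacts n w fun i j => i + L ≤ j : ℕ) : ℝ) ≤ (((n + 1) * (n + 1) : ℕ) : ℝ) := by
      exact_mod_cast h1
    push_cast at h2
    nlinarith
  have hpt : ∀ w ∈ saws n, ((contacts n w fun i j => i + L ≤ j : ℕ) : ℝ)
      ≤ C * X + (if C * X ≤ ((contacts n w fun i j => i + L ≤ j : ℕ) : ℝ) then
        ((n : ℝ) + 2) ^ 2 else 0) := by
    intro w _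
    split_ifs with h1
    · have := htriv w
      have : 0 ≤ C * X := by positivity
      linarith
    · linarith [not_le.1 h1]
  refine (Finset.sum_le_sum hpt).trans ?_
  rw [Finset.sum_add_distrib, Finset.sum_const, ← Finset.sum_filter, Finset.sum_const,
    nsmul_eq_mul, nsmul_eq_mul, card_saws]
  have h3 : (((saws n).filter fun w => C * X ≤ ((contacts n w fun i j => i + L ≤ j : ℕ) : ℝ)).card
      : ℝ) ≤ Real.exp (-(M * X)) * cc n := by
    rwa [div_le_iff₀ hc] at hp
  have h4 : (((saws n).filter fun w => C * X ≤ ((contacts n w fun i j => i + L ≤ j : ℕ) : ℝ)).card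
      : ℝ) * ((n : ℝ) + 2) ^ 2 ≤ cc n * 1 := by
    calc _ ≤ (Real.exp (-(M * X)) * cc n) * Real.exp (M * X) := by
          apply mul_le_mul h3 _ (by positivity) (by positivity)
          refine (hM n hn).trans (Real.exp_le_exp.2 ?_)
          exact mul_le_mul_of_nonneg_left hXn hM0
      _ = cc n * 1 := by
          rw [mul_comm (Real.exp (-(M * X))), mul_assoc, ← Real.exp_add, neg_add_cancel,
            Real.exp_zero]
  have h5 : (cc n : ℝ) * 1 ≤ cc n * X := mul_le_mul_of_nonneg_left hX1 hc.le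
  linarith

/-- relations which differ only beyond the times of the walk -/
lemma contacts_congr {n : ℕ} {w : Fin (n + 1) → ℤ × ℤ} {R S : ℕ → ℕ → Prop}
    (h : ∀ i j, i ≤ n → j ≤ n → (R i j ↔ S i j)) : contacts n w R = contacts n w S := by
  unfold contacts
  congr 1
  have : (fun p : Fin (n + 1) × Fin (n + 1) => R p.1 p.2 ∧
      |(w p.2).1 - (w p.1).1| + |(w p.2).2 - (w p.1).2| = 1) = (fun p => S p.1 p.2 ∧
      |(w p.2).1 - (w p.1).1| + |(w p.2).2 - (w p.1).2| = 1) := by
    funext p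
    rw [h p.1 p.2 (by have := p.1.2; omega) (by have := p.2.2; omega)]
  rw [this]

/-- **contacts between a subwalk and the rest** -/
theorem sub_contacts (ε : ℝ) (hε : 0 < ε) (hε1 : ε ≤ 1) (A : ℝ) (hA : 0 ≤ A) :
    ∃ C : ℝ, 0 < C ∧ ∀ n : ℕ, 1 ≤ n →
    prob n (fun w => ∃ a b : ℕ, C * (n : ℝ) ^ ε ≤
      contacts n w fun i j => (a ≤ i ∧ i < b) ∧ ¬ (a ≤ j ∧ j < b))
      ≤ Real.exp (-(A * (n : ℝ) ^ ε)) := by
  classical
  -- union bound over `(n + 2)^2` pairs
  obtain ⟨M, hM0, hM⟩ := exists_M ε hε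
  obtain ⟨C, hC, h⟩ := master ε hε hε1 (A + M) (by positivity)
  refine ⟨6 * C, by positivity, ?_⟩
  intro n hn
  have hn0 : (1 : ℝ) ≤ n := by exact_mod_cast hn
  have hnε : 1 ≤ (n : ℝ) ^ ε := Real.one_le_rpow hn0 hε.le
  set R : ℕ → ℕ → ℕ → ℕ → Prop := fun a b i j => (a ≤ i ∧ i < b) ∧ ¬ (a ≤ j ∧ j < b) with hR
  have hone : ∀ a b : ℕ, prob n (fun w => 6 * C * (n : ℝ) ^ ε ≤ contacts n w (R a b))
      ≤ Real.exp (-((A + M) * (n : ℝ) ^ ε)) := by
    intro a b
    set β : ℕ → ℕ := fun i => (if a ≤ i then 1 else 0) + (if max a b ≤ i then 1 else 0) with hβ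
    have hmono : Monotone β := by
      intro i j hij
      simp only [hβ]
      apply Nat.add_le_add
      · split_ifs <;> omega
      · split_ifs with h1 h2
        · exact le_refl _
        · exact absurd (h1.trans hij) h2
        · omega
        · exact le_refl _
    have hsum : ∑ b ∈ (Finset.range (n + 1)).image β,
        (((Finset.range (n + 1)).filter fun i => β i = b).card : ℝ) ^ ε ≤ 6 * (n : ℝ) ^ ε := by
      have h1 : ((Finset.range (n + 1)).image β).card ≤ 3 := by
        have : (Finset.range (n + 1)).image β ⊆ Finset.range 3 := by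
          intro x hx
          rw [Finset.mem_image] at hx
          obtain ⟨i, -, rfl⟩ := hx
          rw [Finset.mem_range]
          simp only [hβ]
          split_ifs <;> omega
        have := Finset.card_le_card this
        rwa [Finset.card_range] at this
      have h2 : ∀ b, (((Finset.range (n + 1)).filter fun i => β i = b).card : ℝ) ≤ 2 * (n : ℝ) := by
        intro b
        have h3 := Finset.card_le_card (Finset.filter_subset (fun i => β i = b)
          (Finset.range (n + 1)))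
        rw [Finset.card_range] at h3
        have h4 : (((Finset.range (n + 1)).filter fun i => β i = b).card : ℝ) ≤ ((n + 1 : ℕ) : ℝ) := by
          exact_mod_cast h3
        push_cast at h4
        linarith
      refine (sum_levels_le hε h1 (by positivity) h2).trans ?_
      rw [Real.mul_rpow (by norm_num) (by positivity)]
      have h5 : (2 : ℝ) ^ ε ≤ 2 := by
        calc (2 : ℝ) ^ ε ≤ (2 : ℝ) ^ (1 : ℝ) := Real.rpow_le_rpow_of_exponent_le (by norm_num) hε1
          _ = 2 := Real.rpow_one 2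
      push_cast
      nlinarith
    have h6 := h n β hmono (6 * (n : ℝ) ^ ε) hsum
    refine le_trans (prob_mono fun w hw => ?_) (h6.trans ?_)
    · have : ((contacts n w (R a b) : ℕ) : ℝ)
          ≤ ((contacts n w fun i j => β i ≠ β j : ℕ) : ℝ) := by
        have : contacts n w (R a b) ≤ contacts n w fun i j => β i ≠ β j := contacts_mono (by
          intro i j hij
          simp only [hR] at hij
          simp only [hβ]
          obtain ⟨⟨h1, h2⟩, h3⟩ := hij
          have hm : max a b = b := by omega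
          rw [hm, if_pos h1, if_neg (by omega)]
          by_cases hj : a ≤ j
          · rw [if_pos hj, if_pos (by omega)]; omega
          · rw [if_neg hj, if_neg (by omega)]; omega)
        exact_mod_cast this
      linarith
    · apply Real.exp_le_exp.2
      nlinarith
  have hsub : prob n (fun w => ∃ a b : ℕ, 6 * C * (n : ℝ) ^ ε ≤ contacts n w (R a b))
      ≤ prob n (fun w => ∃ t ∈ Finset.range (n + 2) ×ˢ Finset.range (n + 2),
        6 * C * (n : ℝ) ^ ε ≤ contacts n w (R t.1 t.2)) := by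
    apply prob_mono
    rintro w ⟨a, b, hab⟩
    refine ⟨(min a (n + 1), min b (n + 1)), ?_, ?_⟩
    · rw [Finset.mem_product, Finset.mem_range, Finset.mem_range]
      constructor <;> simp only <;> omega
    · have : contacts n w (R a b) = contacts n w (R (min a (n + 1)) (min b (n + 1))) := by
        apply contacts_congr
        intro i j hi hj
        simp only [hR]
        constructor
        · rintro ⟨⟨h1, h2⟩, h3⟩
          exact ⟨⟨by omega, by omega⟩, fun h4 => h3 ⟨by omega, by omega⟩⟩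
        · rintro ⟨⟨h1, h2⟩, h3⟩
          exact ⟨⟨by omega, by omega⟩, fun h4 => h3 ⟨by omega, by omega⟩⟩
      simp only
      rw [← this]
      exact hab
  refine hsub.trans ((prob_exists _ _).trans ?_)
  refine (Finset.sum_le_sum fun t _ => hone t.1 t.2).trans ?_
  rw [Finset.sum_const, nsmul_eq_mul, Finset.card_product, Finset.card_range]
  push_cast
  have h7 := hM n hn
  have h8 : Real.exp (M * (n : ℝ) ^ ε) * Real.exp (-((A + M) * (n : ℝ) ^ ε))
      = Real.exp (-(A * (n : ℝ) ^ ε)) := by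
    rw [← Real.exp_add]; congr 1; ring
  rw [← h8]
  apply mul_le_mul_of_nonneg_right _ (Real.exp_pos _).le
  calc ((n : ℝ) + 2) * ((n : ℝ) + 2) = ((n : ℝ) + 2) ^ 2 := by ring
    _ ≤ _ := h7

end Pool.Agent.SawCon
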