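import Pool.Agent.SawCon.Count

/-!
Every contact between two blocks has a place for a surgery nearby, unless an end of a block is near.
-/

set_option autoImplicit false

open Pool.Agent.SawKes

namespace Pool.Agent.SawCon

/-- `y` follows `x` in `V` -/
def Nx (V : List Site) (x y : Site) : Prop := ∃ l1 l2, V = l1 ++ x :: y :: l2

/-- `{x, y}` is an edge of `V` -/
def Ed (V : List Site) (x y : Site) : Prop := Nx V x y ∨ Nx V y x

/-- `x` is neither the first nor the last site of `V` -/
def Inn (V : List Site) (x : Site) : Prop := ∃ l1 l2 p q, V = l1 ++ p :: x :: q :: l2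

/-- a quarter turn -/
def rot (e : Site) : Site := (-e.2, e.1)

def bump (e f : Site) : Kind := ⟨[0, e, e + f], e, f⟩

def flip (a c : Site) : Kind := ⟨[c - a], -a, c⟩

/-- the pairs of perpendicular unit vectors -/
def PP : Finset (Site × Site) :=
  (D4 ×ˢ D4).filter fun p => p.1.1 * p.2.1 + p.1.2 * p.2.2 = 0

lemma mem_PP {e f : Site} : (e, f) ∈ PP ↔ e ∈ D4 ∧ (f = rot e ∨ f = -rot e) := by
  unfold PP
  rw [Finset.mem_filter, Finset.mem_product]
  constructor
  · rintro ⟨⟨h1, h2⟩, h3⟩
    refine ⟨h1, ?_⟩
    simp only [D4, Finset.mem_insert, Finset.mem_singleton] at h1 h2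
    rcases h1 with rfl | rfl | rfl | rfl <;> rcases h2 with rfl | rfl | rfl | rfl <;>
      first | (exfalso; revert h3; decide) | (left; decide) | (right; decide)
  · rintro ⟨h1, h2⟩
    simp only [D4, Finset.mem_insert, Finset.mem_singleton] at h1
    rcases h1 with rfl | rfl | rfl | rfl <;> rcases h2 with rfl | rfl <;> decide

lemma card_PP : PP.card = 8 := by decide

lemma D4_cases {e d : Site} (he : e ∈ D4) (hd : d ∈ D4) :
    d = e ∨ d = -e ∨ d = rot e ∨ d = -rot e := by
  simp only [D4, Finset.mem_insert, Finset.mem_singleton] at he hd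
  rcases he with rfl | rfl | rfl | rfl <;> rcases hd with rfl | rfl | rfl | rfl <;>
    decide

lemma adj_dec {a b : Site} (h : b - a ∈ D4) : Adj a b := adj_iff.2 h

lemma bump_ok {e f : Site} (h : (e, f) ∈ PP) : (bump e f).Ok := by
  rw [mem_PP] at h
  obtain ⟨he, hf⟩ := h
  simp only [D4, Finset.mem_insert, Finset.mem_singleton] at he
  rcases he with rfl | rfl | rfl | rfl <;> rcases hf with rfl | rfl <;>
  · refine ⟨by simp [bump], ?_, by decide, ?_, ?_, by decide, by decide, by decide⟩
    · simp only [bump, List.isChain_cons_cons, List.isChain_singleton, and_true]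
      exact ⟨adj_dec (by decide), adj_dec (by decide)⟩
    · intro d hd
      simp only [bump, List.getLast?_cons_cons, List.getLast?_singleton, Option.mem_def,
        Option.some.injEq] at hd
      subst hd
      exact adj_dec (by decide)
    · intro d hd
      simp only [bump, List.head?_cons, Option.mem_def, Option.some.injEq] at hd
      exact Or.inl hd.symm

lemma flip_ok {a c : Site} (h : (a, c) ∈ PP) : (flip a c).Ok := by
  rw [mem_PP] at h
  obtain ⟨he, hf⟩ := h
  simp only [D4, Finset.mem_insert, Finset.mem_singleton] at he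
  rcases he with rfl | rfl | rfl | rfl <;> rcases hf with rfl | rfl <;>
  · refine ⟨by simp [flip], List.isChain_singleton _, by decide, ?_, ?_, by decide, by decide,
      by decide⟩
    · intro d hd
      simp only [flip, List.getLast?_singleton, Option.mem_def, Option.some.injEq] at hd
      subst hd
      exact adj_dec (by decide)
    · intro d hd
      simp only [flip, List.head?_cons, Option.mem_def, Option.some.injEq] at hd
      subst hd
      exact Or.inr (adj_dec (by decide))

/-- the kinds of surgeries -/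
def knd (t : Bool) (p : Site × Site) : Kind := if t then bump p.1 p.2 else flip p.1 p.2

lemma knd_ok (t : Bool) {p : Site × Site} (hp : p ∈ PP) : (knd t p).Ok := by
  cases t
  · exact flip_ok hp
  · exact bump_ok hp

lemma knd_len (t : Bool) (p : Site × Site) : (knd t p).o.length ≤ 3 := by
  cases t <;> simp [knd, bump, flip]

lemma knd_card (t : Bool) (p : Site × Site) : ((knd t p).o.toFinset.erase 0).card ≤ 2 := by
  cases t
  · simp only [knd, flip]
    refine (Finset.card_le_card (Finset.erase_subset _ _)).trans ?_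
    refine (List.toFinset_card_le _).trans ?_
    simp
  · simp only [knd, bump, if_true]
    have : (([0, p.1, p.1 + p.2] : List Site).toFinset.erase 0) ⊆ {p.1, p.1 + p.2} := by
      intro z hz
      simp only [List.toFinset_cons, List.toFinset_nil, Finset.mem_erase, Finset.mem_insert,
        Finset.notMem_empty, or_false] at hz
      simp only [Finset.mem_insert, Finset.mem_singleton]
      tauto
    exact (Finset.card_le_card this).trans Finset.card_le_two

/-- a place for a surgery of kind `κ`, without condition on residues -/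
def place (κ : Kind) (W : List (List Site)) (b : ℕ) (v : Site) : Prop :=
  Pl κ (blk W b) v ∧ ∃ d ∈ κ.o, d ≠ 0 ∧ ∃ b', b' ≠ b ∧ v + d ∈ blk W b'

lemma Nx.left {V : List Site} {x y : Site} (h : Nx V x y) : x ∈ V := by
  obtain ⟨l1, l2, rfl⟩ := h; simp

lemma Nx.right {V : List Site} {x y : Site} (h : Nx V x y) : y ∈ V := by
  obtain ⟨l1, l2, rfl⟩ := h; simp

lemma Ed.left {V : List Site} {x y : Site} (h : Ed V x y) : x ∈ V :=
  h.elim Nx.left Nx.right

lemma Ed.right {V : List Site} {x y : Site} (h : Ed V x y) : y ∈ V :=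
  h.elim Nx.right Nx.left

lemma Nx.adj {V : List Site} (hc : V.IsChain Adj) {x y : Site} (h : Nx V x y) : Adj x y := by
  obtain ⟨l1, l2, he⟩ := h
  rw [he] at hc
  exact (List.isChain_iff_forall_rel_of_append_cons_cons.1 hc) (l₁ := l1) (l₂ := l2) rfl

lemma PP_ne {e f : Site} (h : (e, f) ∈ PP) : e ≠ 0 ∧ f ≠ 0 ∧ e + f ≠ 0 ∧ e - f ≠ 0 := by
  rw [mem_PP] at h
  obtain ⟨he, hf⟩ := h
  simp only [D4, Finset.mem_insert, Finset.mem_singleton] at he
  rcases he with rfl | rfl | rfl | rfl <;> rcases hf with rfl | rfl <;> decide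

lemma PP_neg {e f : Site} (h : (e, f) ∈ PP) : (e, -f) ∈ PP := by
  rw [mem_PP] at h ⊢
  refine ⟨h.1, ?_⟩
  rcases h.2 with h | h
  · right; rw [h]
  · left; rw [h, neg_neg]

lemma PP_swap {e f : Site} (h : (e, f) ∈ PP) : (f, e) ∈ PP := by
  unfold PP at *
  rw [Finset.mem_filter, Finset.mem_product] at *
  refine ⟨⟨h.1.2, h.1.1⟩, ?_⟩
  have := h.2
  simp only at this ⊢
  linarith

variable {W : List (List Site)} {b : ℕ}

/-- an edge of a block, both of whose translates by `e` are outside the block and one of them is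
visited -/
lemma bump_place {x e f : Site} (hp : (e, f) ∈ PP) (hE : Ed (blk W b) x (x + f))
    (h1 : x + e ∉ blk W b) (h2 : x + e + f ∉ blk W b)
    (h3 : ∃ b', b' ≠ b ∧ x + e ∈ blk W b') :
    ∃ p ∈ PP, place (knd true p) W b x ∨ place (knd true p) W b (x + f) := by
  obtain ⟨n1, n2, n3, n4⟩ := PP_ne hp
  obtain ⟨b', hb', h3⟩ := h3
  rcases hE with ⟨l1, l2, hE⟩ | ⟨l1, l2, hE⟩
  · refine ⟨(e, f), hp, Or.inl ⟨⟨⟨l1, l2, hE, Or.inl rfl⟩, ?_⟩, e, ?_, n1, b', hb', h3⟩⟩
    · intro d hd hd0
      simp only [knd, bump, if_true, List.mem_cons, List.not_mem_nil, or_false] at hd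
      rcases hd with rfl | rfl | rfl
      · exact absurd rfl hd0
      · exact h1
      · rw [← add_assoc]; exact h2
    · simp [knd, bump]
  · refine ⟨(e, -f), PP_neg hp, Or.inr ⟨⟨⟨l1, l2, ?_, Or.inl rfl⟩, ?_⟩, e + -f, ?_, ?_, b', hb', ?_⟩⟩
    · simp only [knd, bump, if_true]
      rw [add_neg_cancel_right]
      exact hE
    · intro d hd hd0
      simp only [knd, bump, if_true, List.mem_cons, List.not_mem_nil, or_false] at hd
      rcases hd with rfl | rfl | rfl
      · exact absurd rfl hd0
      · rw [add_right_comm]; exact h2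
      · rw [show x + f + (e + -f) = x + e by abel]; exact h1
    · simp [knd, bump]
    · rw [← sub_eq_add_neg]; exact n4
    · rw [show x + f + (e + -f) = x + e by abel]; exact h3

/-- a corner of a block whose opposite site is outside the block and visited -/
lemma flip_place {x a c : Site} (hp : (a, c) ∈ PP) {l1 l2 : List Site}
    (hE : blk W b = l1 ++ (x - a) :: x :: (x + c) :: l2)
    (h1 : x + (c - a) ∉ blk W b)
    (h3 : ∃ b', b' ≠ b ∧ x + (c - a) ∈ blk W b') :
    place (knd false (a, c)) W b x := by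
  obtain ⟨n1, n2, n3, n4⟩ := PP_ne hp
  obtain ⟨b', hb', h3⟩ := h3
  refine ⟨⟨⟨l1 ++ [x - a], l2, ?_, Or.inr ⟨l1, ?_⟩⟩, ?_⟩, c - a, ?_, ?_, b', hb', h3⟩
  · rw [hE]; simp [knd, flip]
  · simp [knd, flip, sub_eq_add_neg]
  · intro d hd hd0
    simp only [knd, flip, Bool.false_eq_true, if_false, List.mem_cons, List.not_mem_nil,
      or_false] at hd
    rw [hd]; exact h1
  · simp [knd, flip]
  · intro h
    exact n4 (by rw [← neg_sub, h, neg_zero])

/-- the two edges at an inner site -/
lemma two_edges {V : List Site} (hn : V.Nodup) (hc : V.IsChain Adj) {v e : Site} (he : e ∈ D4)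
    (hI : Inn V v) (hve : v + e ∉ V) :
    (Ed V v (v - e) ∧ Ed V v (v + rot e)) ∨ (Ed V v (v - e) ∧ Ed V v (v - rot e)) ∨
      (Ed V v (v + rot e) ∧ Ed V v (v - rot e)) := by
  obtain ⟨l1, l2, p, q, hV⟩ := hI
  have hp : Nx V p v := ⟨l1, q :: l2, hV⟩
  have hq : Nx V v q := ⟨l1 ++ [p], l2, by rw [hV]; simp⟩
  have hpq : p ≠ q := by
    rintro rfl
    rw [hV] at hn
    have h1 := (List.nodup_append.1 hn).2.1
    exact (List.nodup_cons.1 h1).1 (by simp)
  have ep : Ed V v p := Or.inr hp
  have eq : Ed V v q := Or.inl hq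
  have dp : p - v ∈ D4 := adj_iff.1 (adj_symm (hp.adj hc))
  have dq : q - v ∈ D4 := adj_iff.1 (hq.adj hc)
  have key : ∀ {y : Site}, y ∈ V → y - v ∈ D4 → y = v - e ∨ y = v + rot e ∨ y = v - rot e := by
    intro y hy hd
    rcases D4_cases he hd with h | h | h | h
    · exfalso
      apply hve
      rw [← h, add_sub_cancel]
      exact hy
    · left; rw [sub_eq_iff_eq_add] at h; rw [h]; abel
    · right; left; rw [sub_eq_iff_eq_add] at h; rw [h]; abel
    · right; right; rw [sub_eq_iff_eq_add] at h; rw [h]; abel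
  rcases key hp.left dp with rfl | rfl | rfl <;> rcases key hq.right dq with rfl | rfl | rfl <;>
    first | exact absurd rfl hpq | tauto

/-- neighbours of an inner site -/
lemma inn_nbrs {V : List Site} (hn : V.Nodup) {x y z : Site} (hI : Inn V x) (hy : Ed V x y)
    (hz : Ed V x z) (hyz : y ≠ z) :
    (∃ l1 l2, V = l1 ++ y :: x :: z :: l2) ∨ (∃ l1 l2, V = l1 ++ z :: x :: y :: l2) := by
  obtain ⟨l1, l2, p, q, hV⟩ := hI
  have hV' : V = (l1 ++ [p]) ++ x :: (q :: l2) := by rw [hV]; simp
  have key : ∀ {w : Site}, Ed V x w → w = p ∨ w = q := by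
    intro w hw
    rcases hw with ⟨m1, m2, hm⟩ | ⟨m1, m2, hm⟩
    · right
      have := (split_unique (hV' ▸ hn) (hV'.symm.trans hm)).2
      simp only [List.cons.injEq] at this
      exact this.1.symm
    · left
      have hm' : V = (m1 ++ [w]) ++ x :: m2 := by rw [hm]; simp
      have := (split_unique (hV' ▸ hn) (hV'.symm.trans hm')).1
      have := List.append_inj' this rfl
      simpa using this.2.symm
  rcases key hy with rfl | rfl <;> rcases key hz with rfl | rfl
  · exact absurd rfl hyz
  · exact Or.inl ⟨l1, l2, hV⟩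
  · exact Or.inr ⟨l1, l2, hV⟩
  · exact absurd rfl hyz

/-- close sites -/
def near (v w : Site) : Prop := |w.1 - v.1| ≤ 2 ∧ |w.2 - v.2| ≤ 2

lemma near_add {v d : Site} (h1 : |d.1| ≤ 2) (h2 : |d.2| ≤ 2) : near v (v + d) := by
  unfold near
  simp only [Prod.fst_add, Prod.snd_add, add_sub_cancel_left]
  exact ⟨h1, h2⟩

lemma PP_bd {e f : Site} (h : (e, f) ∈ PP) : (|e.1| ≤ 1 ∧ |e.2| ≤ 1) ∧ (|f.1| ≤ 1 ∧ |f.2| ≤ 1) := by
  rw [mem_PP] at h
  obtain ⟨he, hf⟩ := h
  simp only [D4, Finset.mem_insert, Finset.mem_singleton] at he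
  rcases he with rfl | rfl | rfl | rfl <;> rcases hf with rfl | rfl <;> decide

/-- the second case of the existence lemma -/
lemma exists_place_aux (hW : W.flatten.Nodup) (hc : ∀ b, (blk W b).IsChain Adj) {b' : ℕ}
    (hbb : b ≠ b') {v e g : Site} (hp : (e, g) ∈ PP) (_hv : v ∈ blk W b) (hu : v + e ∈ blk W b')
    (hin : ∀ z, near v z → ∀ c, z ∈ blk W c → Inn (blk W c) z)
    (hA : Ed (blk W b) v (v + g)) (hB : Ed (blk W b') (v + e) (v + e + e)) :
    ∃ t, ∃ p ∈ PP, ∃ c w, near v w ∧ place (knd t p) W c w := by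
  have huV : v + e ∉ blk W b := fun h => hbb (blk_disj hW h hu)
  obtain ⟨⟨e1, e2⟩, ⟨g1, g2⟩⟩ := PP_bd hp
  rw [abs_le] at e1 e2 g1 g2
  have nr : ∀ {i j : ℤ}, |i| ≤ 1 → |j| ≤ 1 → near v (v + (i • e + j • g)) → True := fun _ _ _ => trivial
  by_cases hq : v + e + g ∈ blk W b
  · have hqn : near v (v + e + g) := by
      rw [add_assoc]
      apply near_add <;> simp only [Prod.fst_add, Prod.snd_add] <;> rw [abs_le] <;>
        constructor <;> linarith
    have hqI := hin _ hqn b hq
    have hge : (g, e) ∈ PP := PP_swap hp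
    have hng : -g ∈ D4 := by
      have := (mem_PP.1 (PP_swap (PP_neg hp))).1
      exact this
    have hrot : ∀ {y : Site}, y ∈ blk W b → y - (v + e + g) ∈ D4 →
        y = v + e + g + e ∨ y = v + e + g + g ∨ y = v + g := by
      intro y hy hd
      have he := (mem_PP.1 hp).1
      rcases D4_cases he hd with h | h | h | h
      · left; rw [sub_eq_iff_eq_add] at h; rw [h]; abel
      · right; right; rw [sub_eq_iff_eq_add] at h; rw [h]; abel
      · rcases (mem_PP.1 hp).2 with h' | h'
        · right; left; rw [sub_eq_iff_eq_add] at h; rw [h, h']; abel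
        · exfalso
          apply huV
          have : y = v + e := by
            rw [sub_eq_iff_eq_add] at h
            rw [h, h']; abel
          rw [← this]; exact hy
      · rcases (mem_PP.1 hp).2 with h' | h'
        · exfalso
          apply huV
          have : y = v + e := by
            rw [sub_eq_iff_eq_add] at h
            rw [h, h']; abel
          rw [← this]; exact hy
        · right; left; rw [sub_eq_iff_eq_add] at h; rw [h, h']; abel
    by_cases hqe : Ed (blk W b) (v + e + g) (v + e + g + e)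
    · -- the edge `(u, u + e)` of the other block, direction `g`
      have h1 : v + e + g ∉ blk W b' := fun h => hbb (blk_disj hW hq h)
      have h2 : v + e + g + e ∉ blk W b' := fun h => hbb (blk_disj hW hqe.right h)
      obtain ⟨p, hpp, h⟩ := bump_place (W := W) (b := b') (x := v + e) (e := g) (f := e) hge hB h1 h2
        ⟨b, hbb, hq⟩
      rcases h with h | h
      · refine ⟨true, p, hpp, b', _, ?_, h⟩
        apply near_add <;> rw [abs_le] <;> constructor <;> linarith
      · refine ⟨true, p, hpp, b', _, ?_, h⟩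
        rw [add_assoc]
        apply near_add <;> simp only [Prod.fst_add, Prod.snd_add] <;> rw [abs_le] <;>
          constructor <;> linarith
    · -- `v`, `v + g`, `q` are consecutive
      obtain ⟨l1, l2, p, q, hV⟩ := hqI
      have hpn : Nx (blk W b) p (v + e + g) := ⟨l1, q :: l2, hV⟩
      have hqn' : Nx (blk W b) (v + e + g) q := ⟨l1 ++ [p], l2, by rw [hV]; simp⟩
      have hpq : p ≠ q := by
        rintro rfl
        have hn := blk_nodup hW b
        rw [hV] at hn
        have h1 := (List.nodup_append.1 hn).2.1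
        exact (List.nodup_cons.1 h1).1 (by simp)
      have ep : Ed (blk W b) (v + e + g) p := Or.inr hpn
      have eq : Ed (blk W b) (v + e + g) q := Or.inl hqn'
      have dp : p - (v + e + g) ∈ D4 := adj_iff.1 (adj_symm (hpn.adj (hc b)))
      have dq : q - (v + e + g) ∈ D4 := adj_iff.1 (hqn'.adj (hc b))
      have hx : Ed (blk W b) (v + g) (v + e + g) := by
        rcases hrot hpn.left dp with h | h | h
        · rw [h] at ep; exact absurd ep hqe
        · rcases hrot hqn'.right dq with h' | h' | h'
          · rw [h'] at eq; exact absurd eq hqe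
          · exact absurd (h.trans h'.symm) hpq
          · rw [h'] at eq; exact eq.symm
        · rw [h] at ep; exact ep.symm
      have hv' : Ed (blk W b) (v + g) v := hA.symm
      have hxI : Inn (blk W b) (v + g) := hin _ (by
        apply near_add <;> rw [abs_le] <;> constructor <;> linarith) b hA.right
      have hne : v ≠ v + e + g := by
        intro h
        have : e + g = 0 := by
          rw [add_assoc] at h
          exact (add_right_injective v) (by simpa using h.symm)
        exact (PP_ne hp).2.2.1 this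
      have hnr : near v (v + g) := by
        apply near_add <;> rw [abs_le] <;> constructor <;> linarith
      rcases inn_nbrs (blk_nodup hW b) hxI hv' hx hne with ⟨m1, m2, hm⟩ | ⟨m1, m2, hm⟩
      · -- `v, v + g, v + g + e`
        have e1 : v + g + (e - g) = v + e := by abel
        refine ⟨false, (g, e), hge, b, v + g, hnr,
          flip_place (W := W) (b := b) (x := v + g) hge (l1 := m1) (l2 := m2) ?_ ?_ ⟨b', hbb.symm, ?_⟩⟩
        · rw [hm]
          congr 3
          · abel
          · congr 1; abel
        · rw [e1]; exact huV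
        · rw [e1]; exact hu
      · have e1 : v + g + (-g - -e) = v + e := by abel
        have hge' : (-e, -g) ∈ PP := by
          have h1 := PP_neg hp
          have h2 := PP_neg (PP_swap h1)
          exact PP_swap h2
        refine ⟨false, (-e, -g), hge', b, v + g, hnr,
          flip_place (W := W) (b := b) (x := v + g) hge' (l1 := m1) (l2 := m2) ?_ ?_ ⟨b', hbb.symm, ?_⟩⟩
        · rw [hm]
          congr 3
          · abel
          · congr 1; abel
        · rw [e1]; exact huV
        · rw [e1]; exact hu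
  · obtain ⟨p, hpp, h⟩ := bump_place (W := W) (b := b) (x := v) (e := e) (f := g) hp hA huV hq
      ⟨b', hbb.symm, hu⟩
    rcases h with h | h
    · refine ⟨true, p, hpp, b, _, ?_, h⟩
      unfold near
      simp
    · refine ⟨true, p, hpp, b, _, ?_, h⟩
      apply near_add <;> rw [abs_le] <;> constructor <;> linarith

/-- **existence of a place near a contact** -/
theorem exists_place (hW : W.flatten.Nodup) (hc : ∀ b, (blk W b).IsChain Adj) {b' : ℕ}
    (hbb : b ≠ b') {v e : Site} (he : e ∈ D4) (hv : v ∈ blk W b) (hu : v + e ∈ blk W b')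
    (hin : ∀ z, near v z → ∀ c, z ∈ blk W c → Inn (blk W c) z) :
    ∃ t, ∃ p ∈ PP, ∃ c w, near v w ∧ place (knd t p) W c w := by
  have huV : v + e ∉ blk W b := fun h => hbb (blk_disj hW h hu)
  have hvV : v ∉ blk W b' := fun h => hbb (blk_disj hW hv h)
  have p1 : (e, rot e) ∈ PP := mem_PP.2 ⟨he, Or.inl rfl⟩
  have p2 : (e, -rot e) ∈ PP := mem_PP.2 ⟨he, Or.inr rfl⟩
  obtain ⟨⟨e1, e2⟩, ⟨g1, g2⟩⟩ := PP_bd p1
  rw [abs_le] at e1 e2 g1 g2
  have hne : -e ∈ D4 := by
    simp only [D4, Finset.mem_insert, Finset.mem_singleton] at he ⊢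
    rcases he with rfl | rfl | rfl | rfl <;> decide
  have hrn : rot (-e) = -rot e := by simp [rot]
  have hvI := hin v (by unfold near; simp) b hv
  have huI := hin (v + e) (by
    apply near_add <;> rw [abs_le] <;> constructor <;> linarith) b' hu
  have hA := two_edges (blk_nodup hW b) (hc b) he hvI huV
  have hB := two_edges (blk_nodup hW b') (hc b') hne huI (by rw [add_neg_cancel_right]; exact hvV)
  rw [hrn, sub_neg_eq_add, sub_neg_eq_add] at hB
  -- common direction
  have case1 : ∀ g, (e, g) ∈ PP → Ed (blk W b) v (v + g) → Ed (blk W b') (v + e) (v + e + g) →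
      ∃ t, ∃ p ∈ PP, ∃ c w, near v w ∧ place (knd t p) W c w := by
    intro g hg h1 h2
    obtain ⟨⟨_, _⟩, ⟨g1, g2⟩⟩ := PP_bd hg
    rw [abs_le] at g1 g2
    have h3 : v + e + g ∉ blk W b := fun h => hbb (blk_disj hW h h2.right)
    obtain ⟨p, hpp, h⟩ := bump_place (W := W) (b := b) (x := v) (e := e) (f := g) hg h1 huV h3
      ⟨b', hbb.symm, hu⟩
    rcases h with h | h
    · refine ⟨true, p, hpp, b, _, ?_, h⟩
      unfold near
      simp
    · refine ⟨true, p, hpp, b, _, ?_, h⟩
      apply near_add <;> rw [abs_le] <;> constructor <;> linarith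
  have aux1 := exists_place_aux hW hc hbb p1 hv hu hin
  have aux2 := exists_place_aux hW hc hbb p2 hv hu hin
  have c1 := case1 _ p1
  have c2 := case1 _ p2
  simp only [← sub_eq_add_neg] at aux2 c2 hB
  rcases hA with ⟨a1, a2⟩ | ⟨a1, a2⟩ | ⟨a1, a2⟩ <;> rcases hB with ⟨b1, b2⟩ | ⟨b1, b2⟩ | ⟨b1, b2⟩ <;>
    first | exact c1 (by assumption) (by assumption) | exact c2 (by assumption) (by assumption) |
      exact aux1 (by assumption) (by assumption) | exact aux2 (by assumption) (by assumption)

end Pool.Agent.SawCon
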