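import Pool.Agent.SawCon.Bound
import Pool.Agent.SawMrg.Low

/-!
Contacts of a self-avoiding walk `w : Fin (n + 1) → ℤ × ℤ` and partitions of the time interval.
-/

set_option autoImplicit false

open Pool.Agent.SawKes Pool.Agent.SawMrg Pool.Agent.SawLim

namespace Pool.Agent.SawCon

/-- The number of ordered pairs of times `(i, j)` with `R i j` at which the walk is at
neighbouring sites. -/
noncomputable def contacts (n : ℕ) (w : Fin (n + 1) → ℤ × ℤ) (R : ℕ → ℕ → Prop) : ℕ :=
  Nat.card {p : Fin (n + 1) × Fin (n + 1) // R p.1 p.2 ∧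
    |(w p.2).1 - (w p.1).1| + |(w p.2).2 - (w p.1).2| = 1}

open scoped Classical in
/-- The probability of an event for the uniformly random `n`-step self-avoiding walk. -/
noncomputable def prob (n : ℕ) (E : (Fin (n + 1) → ℤ × ℤ) → Prop) : ℝ :=
  avg n fun w => if E w then 1 else 0

open scoped Classical in
lemma prob_eq (n : ℕ) (E : (Fin (n + 1) → ℤ × ℤ) → Prop) :
    prob n E = (((saws n).filter E).card : ℝ) / cc n := by
  rw [prob, avg_eq, card_saws, Finset.card_filter]
  push_cast
  rfl

open scoped Classical in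
lemma prob_mono {n : ℕ} {E F : (Fin (n + 1) → ℤ × ℤ) → Prop} (h : ∀ w, E w → F w) :
    prob n E ≤ prob n F := by
  rw [prob_eq, prob_eq]
  apply div_le_div_of_nonneg_right _ (Nat.cast_nonneg _)
  exact_mod_cast Finset.card_le_card (Finset.monotone_filter_right _ fun w _ hw => h w hw)

lemma contacts_mono {n : ℕ} {w : Fin (n + 1) → ℤ × ℤ} {R S : ℕ → ℕ → Prop}
    (h : ∀ i j, R i j → S i j) : contacts n w R ≤ contacts n w S := by
  unfold contacts
  exact Nat.card_le_card_of_injective
    (fun p : {p : Fin (n + 1) × Fin (n + 1) // R p.1 p.2 ∧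
      |(w p.2).1 - (w p.1).1| + |(w p.2).2 - (w p.1).2| = 1} =>
      (⟨p.1, h _ _ p.2.1, p.2.2⟩ : {p : Fin (n + 1) × Fin (n + 1) // S p.1 p.2 ∧
      |(w p.2).1 - (w p.1).1| + |(w p.2).2 - (w p.1).2| = 1}))
    (fun p q h => by
      apply Subtype.ext
      exact congrArg (fun x => x.1) h)

/-- every site of the list lies in a block -/
lemma exists_blk {ls : List ℕ} {l : List Site} (h : l.length = ls.sum) {z : Site} (hz : z ∈ l) :
    ∃ b, z ∈ blk (cut ls l) b := by
  apply mem_flatten_blk
  rw [flatten_cut ls l h]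
  exact hz

/-- the partition `ls` refines the level sets of `β` -/
def Refines (ls : List ℕ) (β : ℕ → ℕ) : Prop :=
  ∀ l : List Site, l.Nodup → l.length = ls.sum → ∀ b i j : ℕ, ∀ (hi : i < l.length)
    (hj : j < l.length), l[i] ∈ blk (cut ls l) b → l[j] ∈ blk (cut ls l) b → β i = β j

lemma blk_cut_subset (ls : List ℕ) (l : List Site) (b : ℕ) {z : Site}
    (hz : z ∈ blk (cut ls l) b) : z ∈ l := by
  induction ls generalizing l b with
  | nil => simp [cut] at hz
  | cons m ms ih =>
    cases b with
    | zero => exact List.mem_of_mem_take hz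
    | succ b => exact List.mem_of_mem_drop (ih _ _ hz)

lemma refines_cons {m : ℕ} {ls : List ℕ} {β : ℕ → ℕ} (hm : ∀ i < m, β i = β 0)
    (h : Refines ls fun i => β (m + i)) : Refines (m :: ls) β := by
  intro l hn hl b i j hi hj h1 h2
  rw [List.sum_cons] at hl
  have hml : (l.drop m).length = ls.sum := by rw [List.length_drop]; omega
  have key : ∀ (k : ℕ) (hk : k < l.length), l[k] ∈ l.take m → k < m := by
    intro k hk hmem
    obtain ⟨a, ha, he⟩ := List.getElem_of_mem hmem
    rw [List.getElem_take] at he
    have ha' : a < m := by rw [List.length_take] at ha; omega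
    have := (List.Nodup.getElem_inj_iff hn).1 he
    omega
  have key2 : ∀ (k : ℕ) (hk : k < l.length), l[k] ∈ l.drop m →
      ∃ hk' : k - m < (l.drop m).length, m ≤ k ∧ (l.drop m)[k - m] = l[k] := by
    intro k hk hmem
    obtain ⟨a, ha, he⟩ := List.getElem_of_mem hmem
    rw [List.getElem_drop] at he
    have := (List.Nodup.getElem_inj_iff hn).1 he
    refine ⟨by rw [List.length_drop] at ha ⊢; omega, by omega, ?_⟩
    rw [List.getElem_drop]
    congr 1
    omega
  cases b with
  | zero =>
    have e1 := key i hi h1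
    have e2 := key j hj h2
    rw [hm i e1, hm j e2]
  | succ b =>
    have h1' : l[i] ∈ blk (cut ls (l.drop m)) b := h1
    have h2' : l[j] ∈ blk (cut ls (l.drop m)) b := h2
    obtain ⟨a1, a2, a3⟩ := key2 i hi (blk_cut_subset _ _ _ h1')
    obtain ⟨b1, b2, b3⟩ := key2 j hj (blk_cut_subset _ _ _ h2')
    rw [← a3] at h1'
    rw [← b3] at h2'
    have := h (l.drop m) (hn.sublist (List.drop_sublist m l)) hml b (i - m) (j - m) a1 b1 h1' h2'
    simp only at this
    rwa [show m + (i - m) = i by omega, show m + (j - m) = j by omega] at this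

/-- **from monotone functions to partitions** -/
theorem exists_partition (ε : ℝ) : ∀ (N : ℕ) (β : ℕ → ℕ), Monotone β →
    ∃ ls : List ℕ, (∀ m ∈ ls, 1 ≤ m) ∧ ls.sum = N ∧ Refines ls β ∧
    (ls.map fun l : ℕ => (l : ℝ) ^ ε).sum = ∑ i ∈ Finset.range N,
      (((Finset.range N).filter fun j => β j = β i).card : ℝ) ^ (ε - 1) := by
  intro N
  induction N using Nat.strong_induction_on with
  | _ N ih =>
    intro β hβ
    rcases Nat.eq_zero_or_pos N with rfl | hN
    · refine ⟨[], by simp, rfl, ?_, by simp⟩
      intro l _ hl b i j hi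
      simp at hl
      subst hl
      simp at hi
    · classical
      have hex : ∃ i, N ≤ i ∨ β 0 < β i := ⟨N, Or.inl (le_refl _)⟩
      set m := Nat.find hex with hm
      have hm1 : ∀ i < m, i < N ∧ β i = β 0 := by
        intro i hi
        have := Nat.find_min hex hi
        rw [not_or] at this
        exact ⟨by omega, le_antisymm (by omega) (hβ (Nat.zero_le i))⟩
      have hm2 : ∀ i, m ≤ i → i < N → β 0 < β i := by
        intro i hi hiN
        rcases Nat.find_spec hex with h | h
        · omega
        · exact lt_of_lt_of_le h (hβ hi)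
      have hmN : m ≤ N := Nat.find_le (Or.inl (le_refl _))
      have hmpos : 1 ≤ m := by
        by_contra h
        have h0 : m = 0 := by omega
        have := Nat.find_spec hex
        rw [← hm, h0] at this
        omega
      obtain ⟨ls, h1, h2, h3, h4⟩ := ih (N - m) (by omega) (fun i => β (m + i))
        (fun i j hij => hβ (by omega))
      refine ⟨m :: ls, ?_, ?_, refines_cons (fun i hi => (hm1 i hi).2) h3, ?_⟩
      · intro k hk
        rcases List.mem_cons.1 hk with rfl | hk
        · exact hmpos
        · exact h1 k hk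
      · rw [List.sum_cons, h2]; omega
      · rw [List.map_cons, List.sum_cons, h4]
        obtain ⟨K, hK⟩ : ∃ K, N = m + K := ⟨N - m, by omega⟩
        have hK' : N - m = K := by omega
        rw [hK', hK, Finset.sum_range_add]
        congr 1
        · have hc : ∀ i ∈ Finset.range m,
              (((Finset.range (m + K)).filter fun j => β j = β i).card : ℝ) ^ (ε - 1)
              = (m : ℝ) ^ (ε - 1) := by
            intro i hi
            rw [Finset.mem_range] at hi
            have : (Finset.range (m + K)).filter (fun j => β j = β i) = Finset.range m := by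
              ext j
              rw [Finset.mem_filter, Finset.mem_range, Finset.mem_range, (hm1 i hi).2]
              constructor
              · rintro ⟨hj, hj2⟩
                by_contra hlt
                have := hm2 j (by omega) (by omega)
                omega
              · intro hj
                exact ⟨by omega, (hm1 j hj).2⟩
            rw [this, Finset.card_range]
          rw [Finset.sum_congr rfl hc, Finset.sum_const, Finset.card_range, nsmul_eq_mul]
          have hmr : (0 : ℝ) < m := by exact_mod_cast hmpos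
          rw [Real.rpow_sub_one hmr.ne']
          field_simp
        · apply Finset.sum_congr rfl
          intro i hi
          rw [Finset.mem_range] at hi
          congr 2
          rw [Finset.card_filter, Finset.card_filter, Finset.sum_range_add]
          rw [Finset.sum_eq_zero (s := Finset.range m), zero_add]
          intro j hj
          rw [Finset.mem_range] at hj
          rw [if_neg]
          intro h
          have := hm2 (m + i) (by omega) (by omega)
          have := (hm1 j hj).2
          omega

/-- contacts of a walk between different blocks -/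
theorem contacts_le {n : ℕ} {ls : List ℕ} (hls : ls.sum = n + 1) {β : ℕ → ℕ} (hR : Refines ls β)
    {w : Fin (n + 1) → ℤ × ℤ} (hw : w ∈ saws n) :
    contacts n w (fun i j => β i ≠ β j) ≤ (con (cut ls (lst n w))).card := by
  classical
  have hl := lst_mem hw
  obtain ⟨h1, h2, h3, h4⟩ := mem_walks.1 hl
  have hlt : ∀ i : Fin (n + 1), (i : ℕ) < (lst n w).length := fun i => by rw [h1]; exact i.2
  have hget : ∀ i : Fin (n + 1), (lst n w)[(i : ℕ)]'(hlt i) = w i := by
    intro i
    rw [getElem_lst w i (hlt i), ← w_eq_wN]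
  have hsum : (lst n w).length = ls.sum := by rw [h1, hls]
  have hmem : ∀ i : Fin (n + 1), w i ∈ lst n w := by
    intro i
    rw [← hget i]
    exact List.getElem_mem _
  have key : ∀ p : {p : Fin (n + 1) × Fin (n + 1) // β p.1 ≠ β p.2 ∧
      |(w p.2).1 - (w p.1).1| + |(w p.2).2 - (w p.1).2| = 1},
      (w p.1.1, w p.1.2 - w p.1.1) ∈ con (cut ls (lst n w)) := by
    rintro ⟨⟨i, j⟩, hp1, hp2⟩
    rw [mem_con]
    refine ⟨?_, ?_⟩
    · exact adj_iff.1 hp2
    · obtain ⟨b, hb⟩ := exists_blk hsum (hmem i)
      obtain ⟨b', hb'⟩ := exists_blk hsum (hmem j)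
      refine ⟨b, b', ?_, hb, ?_⟩
      · rintro rfl
        rw [← hget i] at hb
        rw [← hget j] at hb'
        exact hp1 (hR _ h4 hsum b i j (hlt i) (hlt j) hb hb')
      · simp only
        rw [add_sub_cancel]
        exact hb'
  have hinj : Function.Injective w := (mem_saws.1 hw).2.2
  unfold contacts
  have hcard : Nat.card {x // x ∈ con (cut ls (lst n w))} = (con (cut ls (lst n w))).card := by
    rw [Nat.card_eq_fintype_card, Fintype.card_coe]
  rw [← hcard]
  apply Nat.card_le_card_of_injective
    (fun p => (⟨(w p.1.1, w p.1.2 - w p.1.1), key p⟩ : {x // x ∈ con (cut ls (lst n w))}))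
  rintro ⟨⟨i, j⟩, hp⟩ ⟨⟨i', j'⟩, hp'⟩ he
  simp only [Subtype.mk.injEq, Prod.mk.injEq] at he
  obtain ⟨e1, e2⟩ := he
  have e3 := hinj e1
  subst e3
  have e4 := hinj (sub_left_injective e2)
  subst e4
  rfl

/-- **Master theorem** -/
theorem master (ε : ℝ) (hε : 0 < ε) (hε1 : ε ≤ 1) (A : ℝ) (hA : 0 ≤ A) :
    ∃ C : ℝ, 0 < C ∧ ∀ (n : ℕ) (β : ℕ → ℕ), Monotone β → ∀ Y : ℝ,
    ∑ b ∈ (Finset.range (n + 1)).image β,
      (((Finset.range (n + 1)).filter fun i => β i = b).card : ℝ) ^ ε ≤ Y →
    prob n (fun w => C * Y ≤ contacts n w fun i j => β i ≠ β j) ≤ Real.exp (-(A * Y)) := by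
  classical
  obtain ⟨C, hC, h⟩ := blocks_bound ε hε hε1 A hA
  refine ⟨C, hC, ?_⟩
  intro n β hβ Y hY
  obtain ⟨ls, h1, h2, h3, h4⟩ := exists_partition ε (n + 1) β hβ
  have hY' : (ls.map fun l : ℕ => (l : ℝ) ^ ε).sum ≤ Y := by
    refine le_trans (le_of_eq ?_) hY
    rw [h4, Finset.sum_comp (fun b => (((Finset.range (n + 1)).filter fun j => β j = b).card : ℝ)
      ^ (ε - 1)) β]
    apply Finset.sum_congr rfl
    intro b hb
    rw [Finset.mem_image] at hb
    obtain ⟨i, hi, hib⟩ := hb
    have hpos : (0 : ℝ) < ((Finset.range (n + 1)).filter fun j => β j = b).card := by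
      have : 0 < ((Finset.range (n + 1)).filter fun j => β j = b).card :=
        Finset.card_pos.2 ⟨i, Finset.mem_filter.2 ⟨hi, hib⟩⟩
      exact_mod_cast this
    rw [nsmul_eq_mul, Real.rpow_sub_one hpos.ne']
    field_simp
  have h5 := h n ls h1 h2 Y hY' 0
  rw [prob_eq]
  have hc : (0 : ℝ) < cc n := by exact_mod_cast cc_pos n
  rw [div_le_iff₀ hc]
  refine le_trans ?_ h5
  have : ((saws n).filter fun w => C * Y ≤ ((contacts n w fun i j => β i ≠ β j : ℕ) : ℝ)).card
      ≤ ((walks n 0).filter fun l => C * Y ≤ ((con (cut ls l)).card : ℝ)).card := by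
    apply Finset.card_le_card_of_injOn (lst n)
    · intro w hw
      rw [Finset.mem_coe, Finset.mem_filter] at hw ⊢
      refine ⟨lst_mem hw.1, hw.2.trans ?_⟩
      exact_mod_cast contacts_le h2 h3 hw.1
    · exact lst_inj.injOn
  exact_mod_cast this

end Pool.Agent.SawCon
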