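import Pool.Agent.SawKes.Walk

/-!
Surgery on one block of a self-avoiding walk on `ℤ²`: every site of a sparse set of places is
replaced by a short list of sites; the new sites may belong to other blocks.
-/

set_option autoImplicit false

open Pool.Agent.SawKes

namespace Pool.Agent.SawCon

/-- residues mod 5 -/
def res (v : Site) : ℤ × ℤ := (v.1 % 5, v.2 % 5)

/-- a kind of surgery: the site `v` is replaced by `v + o`, the next site is `v + nx`,
the previous one is `v + pv` (no condition if the list `o` starts with `0`) -/
structure Kind where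
  o : List Site
  pv : Site
  nx : Site

/-- admissible kinds -/
structure Kind.Ok (κ : Kind) : Prop where
  ne : κ.o ≠ []
  chain : κ.o.IsChain Adj
  nodup : κ.o.Nodup
  last : ∀ d ∈ κ.o.getLast?, Adj d κ.nx
  head : ∀ d ∈ κ.o.head?, d = 0 ∨ Adj κ.pv d
  small : ∀ d ∈ κ.o, |d.1| ≤ 1 ∧ |d.2| ≤ 1
  nx1 : |κ.nx.1| ≤ 1 ∧ |κ.nx.2| ≤ 1 ∧ κ.nx ≠ 0
  pv1 : |κ.pv.1| ≤ 1 ∧ |κ.pv.2| ≤ 1 ∧ κ.pv ≠ 0

/-- the places for `κ` in the block `V` -/
def Pl (κ : Kind) (V : List Site) (v : Site) : Prop :=
  (∃ l1 l2, V = l1 ++ v :: (v + κ.nx) :: l2 ∧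
    (κ.o.head? = some 0 ∨ ∃ l0, l1 = l0 ++ [v + κ.pv])) ∧
  ∀ d ∈ κ.o, d ≠ 0 → v + d ∉ V

lemma Pl.mem {κ : Kind} {V : List Site} {v : Site} (h : Pl κ V v) : v ∈ V := by
  obtain ⟨⟨l1, l2, rfl, -⟩, -⟩ := h
  simp

/-- replacement of a site -/
def sg (κ : Kind) (S : Finset Site) (v : Site) : List Site :=
  if v ∈ S then κ.o.map (v + ·) else [v]

/-- surgery on a block -/
def surg (κ : Kind) (S : Finset Site) (V : List Site) : List Site := V.flatMap (sg κ S)

/-- sites with equal residues and distance at most 2 are equal -/
lemma res_eq {v w a b : Site} (h : res v = res w) (he : v + a = w + b) (ha1 : |a.1| ≤ 1)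
    (ha2 : |a.2| ≤ 1) (hb1 : |b.1| ≤ 1) (hb2 : |b.2| ≤ 1) : v = w := by
  simp only [res, Prod.mk.injEq] at h
  have h1 := congrArg Prod.fst he
  have h2 := congrArg Prod.snd he
  simp only [Prod.fst_add, Prod.snd_add] at h1 h2
  rw [abs_le] at ha1 ha2 hb1 hb2
  have e1 : v.1 = w.1 := by omega
  have e2 : v.2 = w.2 := by omega
  exact Prod.ext e1 e2

lemma mem_surg {κ : Kind} {S : Finset Site} {V : List Site} {z : Site} :
    z ∈ surg κ S V ↔ (z ∈ V ∧ z ∉ S) ∨ ∃ v ∈ V, v ∈ S ∧ ∃ d ∈ κ.o, z = v + d := by
  rw [surg, List.mem_flatMap]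
  constructor
  · rintro ⟨v, hv, hz⟩
    unfold sg at hz
    split_ifs at hz with h
    · rw [List.mem_map] at hz
      obtain ⟨d, hd, rfl⟩ := hz
      exact Or.inr ⟨v, hv, h, d, hd, rfl⟩
    · rw [List.mem_singleton] at hz
      subst hz
      exact Or.inl ⟨hv, h⟩
  · rintro (⟨h1, h2⟩ | ⟨v, hv, hS, d, hd, rfl⟩)
    · exact ⟨z, h1, by simp [sg, h2]⟩
    · refine ⟨v, hv, ?_⟩
      simp only [sg, hS, if_true, List.mem_map]
      exact ⟨d, hd, rfl⟩

/-- standing hypotheses -/
structure Good (κ : Kind) (S : Finset Site) (V : List Site) : Prop where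
  pl : ∀ v ∈ S, Pl κ V v
  sep : ∀ v ∈ S, ∀ w ∈ S, res v = res w

variable {κ : Kind} {S : Finset Site} {V : List Site}

lemma Good.eq (hκ : κ.Ok) (h : Good κ S V) {v w a b : Site} (hv : v ∈ S) (hw : w ∈ S)
    (ha : a ∈ κ.o) (hb : b ∈ κ.o) (he : v + a = w + b) : v = w :=
  res_eq (h.sep v hv w hw) he (hκ.small a ha).1 (hκ.small a ha).2 (hκ.small b hb).1
    (hκ.small b hb).2

lemma Good.nodup (hκ : κ.Ok) (h : Good κ S V) (hV : V.Nodup) : (surg κ S V).Nodup := by
  rw [surg, List.nodup_flatMap]
  constructor
  · intro v _
    unfold sg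
    split_ifs with hv
    · exact hκ.nodup.map (add_right_injective v)
    · exact List.nodup_singleton v
  · refine (List.Pairwise.imp_of_mem ?_ hV)
    intro v w hv hw hne
    show List.Disjoint (sg κ S v) (sg κ S w)
    intro z hz1 hz2
    unfold sg at hz1 hz2
    split_ifs at hz1 with h1
    · rw [List.mem_map] at hz1
      obtain ⟨a, ha, rfl⟩ := hz1
      split_ifs at hz2 with h2
      · rw [List.mem_map] at hz2
        obtain ⟨b, hb, hb2⟩ := hz2
        exact hne (h.eq hκ h1 h2 ha hb hb2.symm)
      · rw [List.mem_singleton] at hz2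
        by_cases ha0 : a = 0
        · subst ha0
          rw [add_zero] at hz2
          exact hne hz2
        · exact (h.pl v h1).2 a ha ha0 (hz2 ▸ hw)
    · rw [List.mem_singleton] at hz1
      subst hz1
      split_ifs at hz2 with h2
      · rw [List.mem_map] at hz2
        obtain ⟨b, hb, hb2⟩ := hz2
        by_cases hb0 : b = 0
        · subst hb0
          rw [add_zero] at hb2
          exact hne hb2.symm
        · exact (h.pl w h2).2 b hb hb0 (hb2 ▸ hv)
      · rw [List.mem_singleton] at hz2
        exact hne hz2

/-- in a list without repetitions the decomposition at an element is unique -/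
lemma split_unique {α : Type*} {l1 l2 m1 m2 : List α} {x : α}
    (hn : (l1 ++ x :: l2).Nodup) (h : l1 ++ x :: l2 = m1 ++ x :: m2) : l1 = m1 ∧ l2 = m2 := by
  induction l1 generalizing m1 with
  | nil =>
    cases m1 with
    | nil => simpa using h
    | cons a m1 =>
      simp only [List.nil_append, List.cons_append, List.cons.injEq] at h
      obtain ⟨rfl, h⟩ := h
      exfalso
      simp only [List.nil_append] at hn
      have := (List.nodup_cons.1 hn).1
      exact this (by rw [h]; simp)
  | cons a l1 ih =>
    cases m1 with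
    | nil =>
      simp only [List.nil_append, List.cons_append, List.cons.injEq] at h
      obtain ⟨rfl, h⟩ := h
      exfalso
      simp only [List.cons_append] at hn
      have := (List.nodup_cons.1 hn).1
      exact this (by simp)
    | cons b m1 =>
      simp only [List.cons_append, List.cons.injEq] at h
      obtain ⟨rfl, h⟩ := h
      simp only [List.cons_append] at hn
      obtain ⟨e1, e2⟩ := ih (List.nodup_cons.1 hn).2 h
      exact ⟨by rw [e1], e2⟩

lemma Good.next (h : Good κ S V) (hV : V.Nodup) {v w : Site} {l1 l2 : List Site} (hv : v ∈ S)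
    (he : V = l1 ++ v :: w :: l2) : w = v + κ.nx := by
  obtain ⟨⟨m1, m2, hm, -⟩, -⟩ := h.pl v hv
  have := split_unique (he ▸ hV) (he.symm.trans hm)
  have h2 := this.2
  simp only [List.cons.injEq] at h2
  exact h2.1

lemma Good.prev (h : Good κ S V) (hV : V.Nodup) {v w : Site} {l1 l2 : List Site} (hv : v ∈ S)
    (he : V = l1 ++ w :: v :: l2) : κ.o.head? = some 0 ∨ w = v + κ.pv := by
  obtain ⟨⟨m1, m2, hm, hp⟩, -⟩ := h.pl v hv
  rcases hp with hp | ⟨l0, hp⟩
  · exact Or.inl hp
  · right
    have he' : V = (l1 ++ [w]) ++ v :: l2 := by rw [he]; simp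
    have := split_unique (he' ▸ hV) (he'.symm.trans hm)
    have h1 := this.1
    rw [hp] at h1
    have := List.append_inj' h1 rfl
    simpa using this.2

lemma sg_ne (hκ : κ.Ok) (v : Site) : sg κ S v ≠ [] := by
  unfold sg
  split_ifs
  · simpa using hκ.ne
  · simp

/-- not both `v` and a neighbouring site in the list are places -/
lemma Good.not_both (hκ : κ.Ok) (h : Good κ S V) {v : Site} (hv : v ∈ S)
    (hw : v + κ.nx ∈ S) : False := by
  have := res_eq (a := κ.nx) (b := 0) (h.sep v hv _ hw) (by rw [add_zero]) hκ.nx1.1 hκ.nx1.2.1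
    (by simp) (by simp)
  exact hκ.nx1.2.2 (by simpa using this.symm)

lemma adj_add {a b v : Site} : Adj (v + a) (v + b) ↔ Adj a b := by
  unfold Adj
  rw [add_sub_add_left_eq_sub]

lemma Good.chain (hκ : κ.Ok) (h : Good κ S V) (hV : V.Nodup) (hc : V.IsChain Adj) :
    (surg κ S V).IsChain Adj := by
  rw [surg, List.flatMap, List.isChain_flatten (by
    intro hm
    rw [List.mem_map] at hm
    obtain ⟨v, -, hv⟩ := hm
    exact sg_ne hκ v hv)]
  constructor
  · intro l hl
    rw [List.mem_map] at hl
    obtain ⟨v, -, rfl⟩ := hl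
    unfold sg
    split_ifs
    · rw [List.isChain_map]
      refine hκ.chain.imp ?_
      intro a b hab
      exact adj_add.2 hab
    · exact List.isChain_singleton _
  · rw [List.isChain_map, List.isChain_iff_forall_rel_of_append_cons_cons]
    intro a b l1 l2 hl
    have hab : Adj a b := by
      rw [hl] at hc
      exact (List.isChain_iff_forall_rel_of_append_cons_cons.1 hc) (l₁ := l1) (l₂ := l2) rfl
    intro x hx y hy
    unfold sg at hx hy
    split_ifs at hx with ha
    · have hb := h.next hV ha hl
      subst hb
      have hbS : a + κ.nx ∉ S := fun hb => h.not_both hκ ha hb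
      rw [if_neg hbS] at hy
      simp only [List.head?_cons, Option.mem_def, Option.some.injEq] at hy
      subst hy
      rw [List.getLast?_map, Option.mem_def, Option.map_eq_some_iff] at hx
      obtain ⟨d, hd, rfl⟩ := hx
      exact adj_add.2 (hκ.last d hd)
    · simp only [List.getLast?_singleton, Option.mem_def, Option.some.injEq] at hx
      subst hx
      split_ifs at hy with hb
      · rw [List.head?_map, Option.mem_def, Option.map_eq_some_iff] at hy
        obtain ⟨d, hd, rfl⟩ := hy
        rcases h.prev hV hb hl with h0 | h0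
        · rw [hd] at h0
          simp only [Option.some.injEq] at h0
          subst h0
          rwa [add_zero]
        · rcases hκ.head d hd with h1 | h1
          · subst h1; rwa [add_zero]
          · rw [h0]; exact adj_add.2 h1
      · simp only [List.head?_cons, Option.mem_def, Option.some.injEq] at hy
        subst hy
        exact hab

lemma Good.head (_hκ : κ.Ok) (h : Good κ S V) (hV : V.Nodup) {u : Site} (hu : V.head? = some u) :
    (surg κ S V).head? = some u := by
  cases V with
  | nil => simp at hu
  | cons a V =>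
    simp only [List.head?_cons, Option.some.injEq] at hu
    subst hu
    unfold surg
    rw [List.flatMap_cons]
    unfold sg
    split_ifs with ha
    · obtain ⟨⟨m1, m2, hm, hp⟩, -⟩ := h.pl a ha
      have h1 := (split_unique (l1 := []) (l2 := V) (x := a) (by simpa using hV)
        (by simpa using hm)).1
      rcases hp with hp | ⟨l0, hp⟩
      · cases ho : κ.o with
        | nil => rw [ho] at hp; simp at hp
        | cons d o =>
          rw [ho] at hp
          simp only [List.head?_cons, Option.some.injEq] at hp
          subst hp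
          simp
      · rw [hp] at h1
        simp at h1
    · simp

lemma Good.last (h : Good κ S V) (hV : V.Nodup) : (surg κ S V).getLast? = V.getLast? := by
  rcases List.eq_nil_or_concat V with rfl | ⟨V', a, rfl⟩
  · rfl
  · rw [List.concat_eq_append] at *
    have ha : a ∉ S := by
      intro ha
      obtain ⟨⟨m1, m2, hm, -⟩, -⟩ := h.pl a ha
      have h2 := (split_unique (l1 := V') (l2 := []) (x := a) hV hm).2
      simp at h2
    unfold surg
    rw [List.flatMap_append]
    simp [sg, ha]

/-- total length -/
lemma Good.length (hκ : κ.Ok) (h : Good κ S V) (hV : V.Nodup) :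
    (surg κ S V).length = V.length + (κ.o.length - 1) * S.card := by
  have hSV : S ⊆ V.toFinset := by
    intro v hv
    rw [List.mem_toFinset]
    exact (h.pl v hv).mem
  have ho : 1 ≤ κ.o.length := List.length_pos_iff.2 hκ.ne
  rw [surg, List.length_flatMap]
  have e1 : (List.map (fun a => (sg κ S a).length) V).sum
      = ∑ v ∈ V.toFinset, (sg κ S v).length := by
    rw [List.sum_toFinset _ hV]
  rw [e1]
  have e2 : ∀ v, (sg κ S v).length = 1 + (if v ∈ S then (κ.o.length - 1) else 0) := by
    intro v
    unfold sg
    split_ifs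
    · rw [List.length_map]; omega
    · rfl
  rw [Finset.sum_congr rfl (fun v _ => e2 v), Finset.sum_add_distrib, Finset.sum_const,
    smul_eq_mul, mul_one, List.toFinset_card_of_nodup hV, Finset.sum_ite_mem, Finset.sum_const,
    smul_eq_mul, Finset.inter_eq_right.2 hSV]
  ring

theorem Good.walks (hκ : κ.Ok) (h : Good κ S V) {m : ℕ} {u : Site} (hV : V ∈ walks m u) :
    surg κ S V ∈ walks (m + (κ.o.length - 1) * S.card) u := by
  rw [mem_walks] at hV ⊢
  obtain ⟨h1, h2, h3, h4⟩ := hV
  refine ⟨?_, h.head hκ h4 h2, h.chain hκ h4 h3, h.nodup hκ h4⟩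
  rw [h.length hκ h4, h1]
  ring

/-! ### decoding -/

/-- decoding of a site -/
def dec (κ : Kind) (S : Finset Site) (z : Site) : List Site :=
  match κ.o with
  | [] => []
  | d :: o => if z - d ∈ S then [z - d] else if ∃ a ∈ o, z - a ∈ S then [] else [z]

lemma flatMap_nil {α β : Type*} {l : List α} {f : α → List β} (h : ∀ x ∈ l, f x = []) :
    l.flatMap f = [] := by
  rw [List.flatMap_eq_nil_iff]
  exact h

lemma Good.decode (hκ : κ.Ok) (h : Good κ S V) : (surg κ S V).flatMap (dec κ S) = V := by
  rw [surg, List.flatMap_assoc]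
  have key : ∀ v ∈ V, (sg κ S v).flatMap (dec κ S) = [v] := by
    intro v hv
    cases ho : κ.o with
    | nil => exact absurd ho hκ.ne
    | cons d o =>
      have hdm : d ∈ κ.o := by rw [ho]; simp
      unfold sg
      split_ifs with hS
      · rw [ho, List.map_cons, List.flatMap_cons]
        have e1 : dec κ S (v + d) = [v] := by
          unfold dec
          rw [ho]
          simp only [add_sub_cancel_right]
          rw [if_pos hS]
        have e2 : (List.map (fun x => v + x) o).flatMap (dec κ S) = [] := by
          apply flatMap_nil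
          intro x hx
          rw [List.mem_map] at hx
          obtain ⟨a, ha, rfl⟩ := hx
          have ham : a ∈ κ.o := by rw [ho]; exact List.mem_cons_of_mem _ ha
          have hne : a ≠ d := by
            rintro rfl
            have := hκ.nodup
            rw [ho] at this
            exact (List.nodup_cons.1 this).1 ha
          unfold dec
          rw [ho]
          simp only
          rw [if_neg, if_pos]
          · exact ⟨a, ha, by rwa [add_sub_cancel_right]⟩
          · intro hc
            have := h.eq hκ hS hc ham hdm (by rw [sub_add_cancel])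
            have h3 : v + a = v + d := by
              nth_rewrite 2 [this]
              rw [sub_add_cancel]
            exact hne (add_left_cancel h3)
        rw [e1, e2]
        rfl
      · rw [List.flatMap_cons, List.flatMap_nil, List.append_nil]
        unfold dec
        rw [ho]
        simp only
        have hz : ∀ a ∈ κ.o, v - a ∉ S := by
          intro a ha hc
          by_cases ha0 : a = 0
          · subst ha0
            rw [sub_zero] at hc
            exact hS hc
          · have := (h.pl _ hc).2 a ha ha0
            rw [sub_add_cancel] at this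
            exact this hv
        rw [if_neg (hz d hdm), if_neg]
        rintro ⟨a, ha, hc⟩
        exact hz a (by rw [ho]; exact List.mem_cons_of_mem _ ha) hc
  rw [List.flatMap_congr key]
  simp

end Pool.Agent.SawCon
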