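import Pool.Agent.SawCon.Geom

/-!
The number of contacts between different blocks is bounded by the numbers of places.
-/

set_option autoImplicit false

open Pool.Agent.SawKes

namespace Pool.Agent.SawCon

open scoped Classical in
/-- oriented contacts between different blocks -/
noncomputable def con (W : List (List Site)) : Finset (Site × Site) :=
  (W.flatten.toFinset ×ˢ D4).filter
    fun p => ∃ b b', b ≠ b' ∧ p.1 ∈ blk W b ∧ p.1 + p.2 ∈ blk W b'

open scoped Classical in
/-- ends of blocks -/
noncomputable def bad (W : List (List Site)) : Finset Site :=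
  W.flatten.toFinset.filter fun z => ∃ c, z ∈ blk W c ∧ ¬ Inn (blk W c) z

lemma mem_con {W : List (List Site)} {p : Site × Site} :
    p ∈ con W ↔ p.2 ∈ D4 ∧ ∃ b b', b ≠ b' ∧ p.1 ∈ blk W b ∧ p.1 + p.2 ∈ blk W b' := by
  classical
  unfold con
  rw [Finset.mem_filter, Finset.mem_product, List.mem_toFinset]
  constructor
  · rintro ⟨⟨_, h1⟩, h2⟩
    exact ⟨h1, h2⟩
  · rintro ⟨h1, b, b', h2, h3, h4⟩
    exact ⟨⟨(mem_blk h3).2, h1⟩, b, b', h2, h3, h4⟩

lemma mem_bad {W : List (List Site)} {z : Site} :
    z ∈ bad W ↔ ∃ c, z ∈ blk W c ∧ ¬ Inn (blk W c) z := by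
  classical
  unfold bad
  rw [Finset.mem_filter, List.mem_toFinset]
  constructor
  · exact fun h => h.2
  · rintro ⟨c, h⟩
    exact ⟨(mem_blk h.1).2, c, h⟩

/-- all sites but the first and the last one are inner -/
lemma inn_of {V : List Site} {z : Site} (hz : z ∈ V) (h1 : V.head? ≠ some z)
    (h2 : V.getLast? ≠ some z) : Inn V z := by
  obtain ⟨l1, l2, rfl⟩ := List.append_of_mem hz
  rcases List.eq_nil_or_concat l1 with rfl | ⟨l1', p, rfl⟩
  · exact absurd rfl h1
  · cases l2 with
    | nil => simp at h2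
    | cons q l2 => exact ⟨l1', l2, p, q, by simp⟩

lemma card_bad (W : List (List Site)) : (bad W).card ≤ 2 * W.length := by
  classical
  have h : bad W ⊆ (Finset.range W.length).biUnion fun b =>
      {(blk W b).head?.getD 0, (blk W b).getLast?.getD 0} := by
    intro z hz
    obtain ⟨c, h1, h2⟩ := mem_bad.1 hz
    rw [Finset.mem_biUnion]
    refine ⟨c, Finset.mem_range.2 (mem_blk h1).1, ?_⟩
    rw [Finset.mem_insert, Finset.mem_singleton]
    by_contra hcon
    apply h2
    apply inn_of h1
    · intro h; apply hcon; left; rw [h]; rfl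
    · intro h; apply hcon; right; rw [h]; rfl
  refine (Finset.card_le_card h).trans ?_
  refine Finset.card_biUnion_le.trans ?_
  refine (Finset.sum_le_sum (g := fun _ => 2) fun b _ => Finset.card_le_two).trans ?_
  rw [Finset.sum_const, smul_eq_mul, Finset.card_range, mul_comm]

/-- the residues -/
noncomputable def RR : Finset (ℤ × ℤ) := Finset.Ico 0 5 ×ˢ Finset.Ico 0 5

lemma card_RR : RR.card = 25 := by decide

lemma res_mem (v : Site) : res v ∈ RR := by
  unfold RR res
  rw [Finset.mem_product, Finset.mem_Ico, Finset.mem_Ico]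
  constructor <;> constructor <;> simp only <;> omega

/-- the sites near `z` -/
noncomputable def ball (z : Site) : Finset Site :=
  Finset.Icc (z.1 - 2) (z.1 + 2) ×ˢ Finset.Icc (z.2 - 2) (z.2 + 2)

lemma card_ball (z : Site) : (ball z).card = 25 := by
  unfold ball
  rw [Finset.card_product, Int.card_Icc, Int.card_Icc]
  have e1 : z.1 + 2 + 1 - (z.1 - 2) = 5 := by ring
  have e2 : z.2 + 2 + 1 - (z.2 - 2) = 5 := by ring
  rw [e1, e2]
  rfl

lemma near_ball {v z : Site} (h : near v z) : v ∈ ball z := by
  unfold near at h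
  rw [abs_le, abs_le] at h
  unfold ball
  rw [Finset.mem_product, Finset.mem_Icc, Finset.mem_Icc]
  obtain ⟨⟨h1, h2⟩, ⟨h3, h4⟩⟩ := h
  constructor <;> constructor <;> linarith

/-- if no residue class of places has `k` elements, there are few contacts -/
theorem card_con {W : List (List Site)} (hW : W.flatten.Nodup) (hc : ∀ b, (blk W b).IsChain Adj)
    {k : ℕ} (hk : ∀ t, ∀ p ∈ PP, ∀ r ∈ RR, (PL (knd t p) r W).card ≤ k) :
    (con W).card ≤ 200 * W.length + 40000 * k := by
  classical
  have hsub : con W ⊆ ((bad W).biUnion fun z => ball z ×ˢ D4) ∪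
      ((((Finset.univ : Finset Bool) ×ˢ PP) ×ˢ RR).biUnion fun i =>
        (PL (knd i.1.1 i.1.2) i.2 W).biUnion fun q => ball q.2 ×ˢ D4) := by
    intro x hx
    obtain ⟨hd, b, b', hbb, h1, h2⟩ := mem_con.1 hx
    rw [Finset.mem_union]
    by_cases hin : ∀ z, near x.1 z → ∀ c, z ∈ blk W c → Inn (blk W c) z
    · right
      obtain ⟨t, p, hp, c, w, hn, h3, h4⟩ := exists_place hW hc hbb hd h1 h2 hin
      rw [Finset.mem_biUnion]
      refine ⟨((t, p), res w), ?_, ?_⟩
      · rw [Finset.mem_product, Finset.mem_product]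
        exact ⟨⟨Finset.mem_univ _, hp⟩, res_mem w⟩
      · rw [Finset.mem_biUnion]
        refine ⟨(c, w), mem_PL.2 ⟨rfl, h3, h4⟩, ?_⟩
        rw [Finset.mem_product]
        exact ⟨near_ball hn, hd⟩
    · left
      simp only [not_forall] at hin
      obtain ⟨z, hz, c, hc1, hc2⟩ := hin
      rw [Finset.mem_biUnion]
      refine ⟨z, mem_bad.2 ⟨c, hc1, hc2⟩, ?_⟩
      rw [Finset.mem_product]
      exact ⟨near_ball hz, hd⟩
  have hbd : ∀ z : Site, (ball z ×ˢ D4).card = 100 := by
    intro z
    rw [Finset.card_product, card_ball]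
    rfl
  refine (Finset.card_le_card hsub).trans ((Finset.card_union_le _ _).trans ?_)
  apply Nat.add_le_add
  · refine Finset.card_biUnion_le.trans ?_
    rw [Finset.sum_congr rfl fun z _ => hbd z, Finset.sum_const, smul_eq_mul]
    have := card_bad W
    omega
  · refine Finset.card_biUnion_le.trans ?_
    refine (Finset.sum_le_sum (g := fun _ => 100 * k) fun i hi => ?_).trans ?_
    · refine Finset.card_biUnion_le.trans ?_
      rw [Finset.sum_congr rfl fun z _ => hbd z.2, Finset.sum_const, smul_eq_mul]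
      rw [Finset.mem_product, Finset.mem_product] at hi
      have := hk i.1.1 i.1.2 hi.1.2 i.2 hi.2
      omega
    · rw [Finset.sum_const, smul_eq_mul, Finset.card_product, Finset.card_product, card_PP, card_RR]
      simp only [Fintype.card_bool, Finset.card_univ]
      omega

/-- blocks of a walk -/
lemma walk_blocks {ls : List ℕ} {n : ℕ} (hn : ls.sum = n + 1) {u : Site} {l : List Site}
    (hl : l ∈ walks n u) : (cut ls l).flatten.Nodup ∧ ∀ b, (blk (cut ls l) b).IsChain Adj := by
  obtain ⟨h1, h2, h3, h4⟩ := mem_walks.1 hl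
  have hf : (cut ls l).flatten = l := flatten_cut ls l (by rw [h1, hn])
  refine ⟨by rw [hf]; exact h4, ?_⟩
  clear h1 h2 h4 hn hf hl
  intro b
  induction ls generalizing l b with
  | nil => exact List.isChain_nil
  | cons m ms ih =>
    cases b with
    | zero => exact h3.take m
    | succ b => exact ih (h3.drop m) b

/-- **walks with many contacts between blocks** -/
theorem card_many {ls : List ℕ} (hls : ∀ m ∈ ls, 1 ≤ m) {n : ℕ} (hn : ls.sum = n + 1) (u : Site)
    (s k : ℕ) :
    (k + 1).choose s * ((walks n u).filter fun l =>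
      200 * ls.length + 40000 * k < (con (cut ls l)).card).card
      ≤ 400 * (2 ^ (12 * s) * (fam ls (2 * s) u).card) := by
  classical
  set B := (walks n u).filter fun l => 200 * ls.length + 40000 * k < (con (cut ls l)).card with hB
  have hsub : B ⊆ (((Finset.univ : Finset Bool) ×ˢ PP) ×ˢ RR).biUnion fun i =>
      (walks n u).filter fun l => k + 1 ≤ (PL (knd i.1.1 i.1.2) i.2 (cut ls l)).card := by
    intro l hl
    rw [hB, Finset.mem_filter] at hl
    obtain ⟨hl, hcon⟩ := hl
    obtain ⟨w1, w2⟩ := walk_blocks hn hl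
    by_contra hx
    rw [Finset.mem_biUnion] at hx
    simp only [not_exists, not_and] at hx
    have hk : ∀ t, ∀ p ∈ PP, ∀ r ∈ RR, (PL (knd t p) r (cut ls l)).card ≤ k := by
      intro t p hp r hr
      have := hx ((t, p), r) (by
        rw [Finset.mem_product, Finset.mem_product]
        exact ⟨⟨Finset.mem_univ _, hp⟩, hr⟩)
      rw [Finset.mem_filter] at this
      by_contra hlt
      exact this ⟨hl, by simp only; omega⟩
    have := card_con w1 w2 hk
    rw [length_cut] at this
    omega
  have hone : ∀ i ∈ ((Finset.univ : Finset Bool) ×ˢ PP) ×ˢ RR,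
      (k + 1).choose s * ((walks n u).filter fun l =>
        k + 1 ≤ (PL (knd i.1.1 i.1.2) i.2 (cut ls l)).card).card
      ≤ 2 ^ (12 * s) * (fam ls (2 * s) u).card := by
    intro i hi
    rw [Finset.mem_product, Finset.mem_product] at hi
    refine le_trans ?_ (count (knd_ok i.1.1 hi.1.2) (knd_len _ _) (knd_card _ _) hls hn u s i.2)
    rw [mul_comm, ← smul_eq_mul, ← Finset.sum_const]
    refine (Finset.sum_le_sum fun l hl => ?_).trans
      (Finset.sum_le_sum_of_subset (Finset.filter_subset _ _))
    exact Nat.choose_le_choose s (Finset.mem_filter.1 hl).2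
  calc (k + 1).choose s * B.card
      ≤ (k + 1).choose s * ∑ i ∈ ((Finset.univ : Finset Bool) ×ˢ PP) ×ˢ RR,
        ((walks n u).filter fun l =>
          k + 1 ≤ (PL (knd i.1.1 i.1.2) i.2 (cut ls l)).card).card :=
        Nat.mul_le_mul_left _ ((Finset.card_le_card hsub).trans Finset.card_biUnion_le)
    _ = ∑ i ∈ ((Finset.univ : Finset Bool) ×ˢ PP) ×ˢ RR, (k + 1).choose s *
        ((walks n u).filter fun l =>
          k + 1 ≤ (PL (knd i.1.1 i.1.2) i.2 (cut ls l)).card).card := by rw [Finset.mul_sum]
    _ ≤ ∑ i ∈ ((Finset.univ : Finset Bool) ×ˢ PP) ×ˢ RR,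
        2 ^ (12 * s) * (fam ls (2 * s) u).card := Finset.sum_le_sum hone
    _ = 400 * (2 ^ (12 * s) * (fam ls (2 * s) u).card) := by
        rw [Finset.sum_const, smul_eq_mul, Finset.card_product, Finset.card_product, card_PP,
          card_RR]
        rfl

end Pool.Agent.SawCon
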